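import Mathlib

/-!
Good graphs in the sense of Erdős and Hajnal, and the combinatorial core
(greedy sets along a well-order and their first differences).
-/

universe u

namespace Pool.Agent.Lib.MP_e45b43_lc

/-- `G` is *good*: every clique of `G` is countable, and every colouring of the edges of `G`
with countably many colours has an infinite clique all of whose edges get the same colour. -/
def Good {V : Type u} (G : SimpleGraph V) : Prop :=
  (∀ S : Set V, G.IsClique S → S.Countable) ∧
  ∀ c : G.edgeSet → ℕ, ∃ (S : Set V) (hS : G.IsClique S), S.Infinite ∧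
    ∃ n : ℕ, ∀ (x : V) (hx : x ∈ S) (y : V) (hy : y ∈ S) (hxy : x ≠ y),
      c ⟨s(x, y), hS hx hy hxy⟩ = n

/-- To refute goodness it suffices to give a symmetric colouring of pairs of vertices with
no injective monochromatic sequence of pairwise adjacent vertices. -/
theorem not_good_of {V : Type u} (G : SimpleGraph V) (f : V → V → ℕ)
    (hf : ∀ x y, f x y = f y x)
    (h : ∀ x : ℕ → V, Function.Injective x → (∀ i j, i ≠ j → G.Adj (x i) (x j)) →
      ∀ n, ¬ (∀ i j, i ≠ j → f (x i) (x j) = n)) : ¬ Good G := by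
  rintro ⟨-, hG⟩
  obtain ⟨S, hS, hinf, n, hn⟩ := hG (fun e => Sym2.lift ⟨f, hf⟩ e.1)
  let e := hinf.natEmbedding
  refine h (fun i => (e i : V)) ?_ ?_ n ?_
  · intro i j hij
    exact e.injective (Subtype.ext hij)
  · intro i j hij
    refine hS (e i).2 (e j).2 ?_
    intro h'
    exact hij (e.injective (Subtype.ext h'))
  · intro i j hij
    have hne : (e i : V) ≠ (e j : V) := fun h' => hij (e.injective (Subtype.ext h'))
    have := hn (e i) (e i).2 (e j) (e j).2 hne
    simpa using this

/-- Greedy subsets of `N` along a well-order: `z` is taken iff it lies in `N` and is `r`-related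
to every previously taken element. -/
theorem exists_greedy {V : Type u} [LinearOrder V] [WellFoundedLT V] (r : V → V → Prop)
    (N : Set V) : ∃ K : Set V, ∀ z, z ∈ K ↔ z ∈ N ∧ ∀ z' ∈ K, z' < z → r z' z := by
  let P : V → Prop := WellFounded.fix (wellFounded_lt (α := V))
    (fun z ih => z ∈ N ∧ ∀ (z' : V) (h : z' < z), ih z' h → r z' z)
  refine ⟨{z | P z}, fun z => ?_⟩
  have hP : P z ↔ z ∈ N ∧ ∀ (z' : V) (_ : z' < z), P z' → r z' z := by
    have := WellFounded.fix_eq (wellFounded_lt (α := V))
      (fun z (ih : ∀ y, y < z → Prop) => z ∈ N ∧ ∀ (z' : V) (h : z' < z), ih z' h → r z' z) z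
    exact iff_of_eq this
  simp only [Set.mem_ofPred_eq]
  rw [hP]
  constructor
  · rintro ⟨h1, h2⟩
    exact ⟨h1, fun z' hz' hlt => h2 z' hlt hz'⟩
  · rintro ⟨h1, h2⟩
    exact ⟨h1, fun z' hlt hz' => h2 z' hz' hlt⟩

/-- `d` is the first element at which `A` and `B` differ, and it belongs to `A`. -/
def FirstDiff {V : Type u} [LT V] (A B : Set V) (d : V) : Prop :=
  d ∈ A ∧ d ∉ B ∧ ∀ z, z < d → (z ∈ A ↔ z ∈ B)

theorem exists_firstDiff {V : Type u} [LinearOrder V] [WellFoundedLT V] (A B : Set V)
    (h : A ≠ B) : (∃ d, FirstDiff A B d) ∨ (∃ d, FirstDiff B A d) := by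
  have hne : {z | ¬ (z ∈ A ↔ z ∈ B)}.Nonempty := by
    by_contra hcon
    rw [Set.not_nonempty_iff_eq_empty] at hcon
    apply h
    ext z
    by_contra hz
    have : z ∈ {z | ¬ (z ∈ A ↔ z ∈ B)} := hz
    rw [hcon] at this
    exact this
  obtain ⟨d, hd, hmin⟩ := WellFounded.has_min (wellFounded_lt (α := V)) _ hne
  have hlt : ∀ z, z < d → (z ∈ A ↔ z ∈ B) := by
    intro z hz
    by_contra hcon
    exact hmin z hcon hz
  by_cases hA : d ∈ A
  · left
    refine ⟨d, hA, fun hB => hd ⟨fun _ => hB, fun _ => hA⟩, hlt⟩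
  · right
    have hB : d ∈ B := by
      by_contra hB
      exact hd ⟨fun h1 => absurd h1 hA, fun h1 => absurd h1 hB⟩
    exact ⟨d, hB, hA, fun z hz => (hlt z hz).symm⟩

/-- Two first differences with the same `A`,`B` coincide. -/
theorem FirstDiff.unique {V : Type u} [LinearOrder V] {A B : Set V} {d d' : V}
    (h : FirstDiff A B d) (h' : FirstDiff A B d') : d = d' := by
  rcases lt_trichotomy d d' with hlt | heq | hgt
  · exact absurd ((h'.2.2 d hlt).1 h.1) h.2.1
  · exact heq
  · exact absurd ((h.2.2 d' hgt).1 h'.1) h'.2.1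

/-- There is no sequence of sets `K i` such that the first difference of `K i` and `K j`
(`i < j`) always belongs to the later set and depends only on the later index. -/
theorem no_descending {V : Type u} [LinearOrder V] [WellFoundedLT V] (K : ℕ → Set V)
    (d : ℕ → V) (h : ∀ i j, i < j → FirstDiff (K j) (K i) (d j)) : False := by
  have key : ∀ j, d (j + 2) < d (j + 1) := by
    intro j
    have h1 := h j (j + 1) (by omega)
    have h2 := h (j + 1) (j + 2) (by omega)
    have h3 := h j (j + 2) (by omega)
    rcases lt_trichotomy (d (j + 2)) (d (j + 1)) with hlt | heq | hgt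
    · exact hlt
    · exact absurd (heq ▸ h1.1) h2.2.1
    · exfalso
      -- `d (j+1)` is below `d (j+2)`, so membership in `K (j+1)`, `K (j+2)`, `K j` agree
      have a := h2.2.2 _ hgt
      have b := h3.2.2 _ hgt
      exact h1.2.1 (b.1 (a.2 h1.1))
  have hanti : StrictAnti (fun n => d (n + 1)) := strictAnti_nat_of_succ_lt (fun n => key n)
  obtain ⟨m, hm⟩ := WellFounded.has_min (wellFounded_lt (α := V)) (Set.range (fun n => d (n + 1)))
    ⟨_, ⟨0, rfl⟩⟩
  obtain ⟨⟨n, rfl⟩, hmin⟩ := hm
  exact hmin (d (n + 1 + 1)) ⟨n + 1, rfl⟩ (hanti (Nat.lt_succ_self n))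

/-- If the first difference of `K i` and `K j` (`i < j`) always belongs to the earlier set and
depends only on the earlier index, then these first differences increase. -/
theorem ascending {V : Type u} [LinearOrder V] (K : ℕ → Set V)
    (d : ℕ → V) (h : ∀ i j, i < j → FirstDiff (K i) (K j) (d i)) {i j : ℕ} (hij : i < j) :
    d i < d j := by
  have h1 := h i j hij
  have h2 := h j (j + 1) (by omega)
  have h3 := h i (j + 1) (by omega)
  rcases lt_trichotomy (d i) (d j) with hlt | heq | hgt
  · exact hlt
  · exact absurd (heq ▸ h2.1) h1.2.1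
  · exfalso
    have a := h1.2.2 _ hgt
    have b := h3.2.2 _ hgt
    exact h2.2.1 (b.1 (a.2 h2.1))

/-- An injective-on-`K` numbering of a countable set. -/
theorem exists_numbering {V : Type u} (K : Set V) (hK : K.Countable) :
    ∃ e : V → ℕ, Set.InjOn e K := by
  exact Set.countable_iff_exists_injOn.1 hK

/-- the first difference as a function -/
noncomputable def fd {V : Type u} [LinearOrder V] (A B : Set V) (z : V) : V :=
  open Classical in if h : ∃ d, FirstDiff A B d then h.choose else z

theorem fd_spec {V : Type u} [LinearOrder V] {A B : Set V} (z : V)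
    (h : ∃ d, FirstDiff A B d) : FirstDiff A B (fd A B z) := by
  classical
  unfold fd
  rw [dif_pos h]
  exact h.choose_spec

/-- core: a sequence along which later points are above earlier ones cannot be monochromatic
for the first-difference colouring. -/
theorem core {V : Type u} [LinearOrder V] [WellFoundedLT V] (K : V → Set V) (e : V → V → ℕ)
    (he : ∀ x, Set.InjOn (e x) (K x)) (x : ℕ → V) (m : ℕ)
    (hfd : ∀ i j, i < j → ∃ d, FirstDiff (K (x j)) (K (x i)) d)
    (hm : ∀ i j, i < j → e (x j) (fd (K (x j)) (K (x i)) (x j)) = m) : False := by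
  refine no_descending (fun i => K (x i)) (fun j => fd (K (x j)) (K (x 0)) (x j)) ?_
  intro i j hij
  have h1 := fd_spec (x j) (hfd i j hij)
  have h0 := fd_spec (x j) (hfd 0 j (by omega))
  have heq : fd (K (x j)) (K (x i)) (x j) = fd (K (x j)) (K (x 0)) (x j) := by
    apply he (x j) h1.1 h0.1
    rw [hm i j hij, hm 0 j (by omega)]
  show FirstDiff (K (x j)) (K (x i)) (fd (K (x j)) (K (x 0)) (x j))
  rw [← heq]
  exact h1

end Pool.Agent.Lib.MP_e45b43_lc
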