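import Mathlib
import Pool.Agent.Lib.MP_e45b43_lc.Basic

/-!
# Edge colourings without infinite monochromatic cliques; comparability graphs; unions
-/

set_option autoImplicit false

universe u

namespace Pool.Agent.Lib.MP_e45b43_lc

/-- `H` has a colouring of the pairs of vertices by natural numbers without infinite monochromatic clique -/
def Bad {V : Type u} (H : SimpleGraph V) : Prop :=
  ∃ f : V → V → ℕ, (∀ x y, f x y = f y x) ∧
    ∀ x : ℕ → V, Function.Injective x → (∀ i j, i ≠ j → H.Adj (x i) (x j)) →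
      ∀ n, ¬ ∀ i j, i ≠ j → f (x i) (x j) = n

theorem Bad.not_good {V : Type u} {G : SimpleGraph V} (h : Bad G) : ¬ Good G := by
  obtain ⟨f, hf, hx⟩ := h
  exact not_good_of G f hf hx

/-- Greedy chains below related elements: the first difference belongs to the upper one. -/
theorem firstDiff_of_rel {V : Type u} [LinearOrder V] [WellFoundedLT V] (R : V → V → Prop)
    (hirr : ∀ x, ¬ R x x) (htr : ∀ x y z, R x y → R y z → R x z) (K : V → Set V)
    (hK : ∀ x z, z ∈ K x ↔ R z x ∧ ∀ z' ∈ K x, z' < z → (R z' z ∨ R z z'))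
    {x y : V} (h : R y x) : ∃ d, FirstDiff (K x) (K y) d := by
  have hne : K x ≠ K y := by
    intro heq
    have hy : y ∈ K x := by
      rw [hK]
      refine ⟨h, fun z' hz' _ => Or.inl ?_⟩
      rw [heq] at hz'
      exact ((hK y z').1 hz').1
    rw [heq] at hy
    exact hirr y ((hK y y).1 hy).1
  rcases exists_firstDiff (K x) (K y) hne with h1 | ⟨d, hd⟩
  · exact h1
  · exfalso
    apply hd.2.1
    rw [hK]
    have hdy := (hK y d).1 hd.1
    refine ⟨htr _ _ _ hdy.1 h, fun z' hz' hlt => ?_⟩
    exact hdy.2 z' ((hd.2.2 z' hlt).2 hz') hlt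

theorem bad_union {V : Type u} (G : SimpleGraph V) (H : ℕ → SimpleGraph V)
    (hG : ∀ x y, G.Adj x y ↔ ∃ n, (H n).Adj x y) (hH : ∀ n, Bad (H n)) : Bad G := by
  classical
  choose f hf hx using hH
  let N : V → V → ℕ := fun x y => sInf {n | (H n).Adj x y}
  have hN : ∀ x y, N x y = N y x := by
    intro x y
    have : {n | (H n).Adj x y} = {n | (H n).Adj y x} := by
      ext n
      exact (H n).adj_comm x y
    simp only [N, this]
  refine ⟨fun x y => Nat.pair (N x y) (f (N x y) x y), fun x y => ?_, fun x hinj hadj m hm => ?_⟩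
  · simp only
    rw [hN y x, hf]
  · have hNn : ∀ i j, i ≠ j → N (x i) (x j) = (Nat.unpair m).1 := fun i j hij => by
      rw [← hm i j hij, Nat.unpair_pair]
    refine hx (Nat.unpair m).1 x hinj (fun i j hij => ?_) (Nat.unpair m).2 fun i j hij => ?_
    · rw [← hNn i j hij]
      exact Nat.sInf_mem ((hG _ _).1 (hadj i j hij))
    · have h1 : Nat.pair (N (x i) (x j)) (f (N (x i) (x j)) (x i) (x j)) = m := hm i j hij
      have h2 : (Nat.unpair m).2 = f (N (x i) (x j)) (x i) (x j) := by
        rw [← h1, Nat.unpair_pair]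
      rw [h2, hNn i j hij]

theorem comparability_bad {V : Type u} (H : SimpleGraph V) (R : V → V → Prop)
    (hR : IsStrictOrder V R) (hH : ∀ x y, H.Adj x y ↔ R x y ∨ R y x)
    (hc : ∀ S : Set V, H.IsClique S → S.Countable) : Bad H := by
  classical
  obtain ⟨_, _⟩ := exists_wellFoundedLT V
  have hirr : ∀ x, ¬ R x x := fun x => hR.toIrrefl.irrefl x
  have htr : ∀ x y z, R x y → R y z → R x z := fun x y z h1 h2 => hR.toIsTrans.trans x y z h1 h2
  have hasym : ∀ x y, R x y → ¬ R y x := fun x y h1 h2 => hirr x (htr _ _ _ h1 h2)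
  have hex : ∀ x, ∃ K : Set V, ∀ z, z ∈ K ↔ R z x ∧
      ∀ z' ∈ K, z' < z → (R z' z ∨ R z z') := fun x =>
    exists_greedy (fun z' z => R z' z ∨ R z z') {z | R z x}
  choose K hK using hex
  have hex' : ∀ x, ∃ K : Set V, ∀ z, z ∈ K ↔ R x z ∧
      ∀ z' ∈ K, z' < z → (R z z' ∨ R z' z) := fun x =>
    exists_greedy (fun z' z => R z z' ∨ R z' z) {z | R x z}
  choose K' hK' using hex'
  have hclique : ∀ x, (K x).Countable := by
    intro x
    apply hc
    intro a ha b hb hab
    rw [hH]
    rcases lt_or_gt_of_ne hab with hlt | hgt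
    · exact ((hK x b).1 hb).2 a ha hlt
    · exact (((hK x a).1 ha).2 b hb hgt).symm
  have hclique' : ∀ x, (K' x).Countable := by
    intro x
    apply hc
    intro a ha b hb hab
    rw [hH]
    rcases lt_or_gt_of_ne hab with hlt | hgt
    · exact (((hK' x b).1 hb).2 a ha hlt).symm
    · exact ((hK' x a).1 ha).2 b hb hgt
  choose e he using fun x => exists_numbering (K x) (hclique x)
  choose e' he' using fun x => exists_numbering (K' x) (hclique' x)
  let g : V → V → ℕ := fun y x =>
    Nat.pair (e x (fd (K x) (K y) x)) (e' y (fd (K' y) (K' x) y))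
  let f : V → V → ℕ := fun x y => if R x y then g x y else if R y x then g y x else 0
  have hf : ∀ x y, f x y = f y x := by
    intro x y
    simp only [f]
    by_cases h1 : R x y
    · have h2 := hasym _ _ h1
      simp [h1, h2]
    · by_cases h2 : R y x
      · simp [h1, h2]
      · simp [h1, h2]
  refine ⟨f, hf, ?_⟩
  intro x _ hadj m hm
  have hcomp : ∀ i j, i ≠ j → R (x i) (x j) ∨ R (x j) (x i) := fun i j hij =>
    (hH _ _).1 (hadj i j hij)
  have hgm : ∀ i j, i ≠ j → R (x i) (x j) → g (x i) (x j) = m := by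
    intro i j hij hR'
    have := hm i j hij
    rw [← this]
    simp only [f, if_pos hR']
  have : IsTrans V R := hR.toIsTrans
  obtain ⟨φ, hφ | hφ⟩ := exists_increasing_or_nonincreasing_subseq R x
  · refine core K e he (fun i => x (φ i)) ((Nat.unpair m).1) ?_ ?_
    · intro i j hij
      exact firstDiff_of_rel R hirr htr K hK (hφ i j hij)
    · intro i j hij
      have hne : φ i ≠ φ j := fun h => (ne_of_lt hij) (φ.injective h)
      have := hgm (φ i) (φ j) hne (hφ i j hij)
      rw [← this]
      simp [g]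
  · have hφ' : ∀ i j, i < j → R (x (φ j)) (x (φ i)) := by
      intro i j hij
      have hne : φ i ≠ φ j := fun h => (ne_of_lt hij) (φ.injective h)
      rcases hcomp (φ i) (φ j) hne with h1 | h1
      · exact absurd h1 (hφ i j hij)
      · exact h1
    refine core K' e' he' (fun i => x (φ i)) ((Nat.unpair m).2) ?_ ?_
    · intro i j hij
      exact firstDiff_of_rel (fun a b => R b a) hirr
        (fun a b c h1 h2 => htr _ _ _ h2 h1) K' hK' (hφ' i j hij)
    · intro i j hij
      have hne : φ j ≠ φ i := fun h => (ne_of_lt hij) (φ.injective h).symm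
      have := hgm (φ j) (φ i) hne (hφ' i j hij)
      rw [← this]
      simp [g]

end Pool.Agent.Lib.MP_e45b43_lc
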