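import Mathlib
import Pool.Agent.Lib.MP_e45b43_lc.Basic

/-!
Tools for the clique complex theorem: bad sets of vertices, strategies, closure filtrations.
-/

universe u

namespace Pool.Agent.Lib.MP_e45b43_lc.Tree

open Cardinal Set Pool.Agent.Lib.MP_e45b43_lc

variable {V : Type u}

/-- `A` has a symmetric colouring of pairs without a monochromatic injective sequence of pairwise
adjacent vertices of `A`. -/
def Col (G : SimpleGraph V) (A : Set V) : Prop :=
  ∃ f : V → V → ℕ, (∀ x y, f x y = f y x) ∧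
    ∀ x : ℕ → V, Function.Injective x → (∀ i, x i ∈ A) → (∀ i j, i ≠ j → G.Adj (x i) (x j)) →
      ∀ n, ¬ (∀ i j, i ≠ j → f (x i) (x j) = n)

theorem col_of_not_good (G : SimpleGraph V) (hcl : ∀ S : Set V, G.IsClique S → S.Countable)
    (W : Set V) (h : ¬ Good (G.induce W)) : Col G W := by
  classical
  have hcl' : ∀ S : Set ↥W, (G.induce W).IsClique S → S.Countable := by
    intro S hS
    have h1 : G.IsClique ((fun x : ↥W => (x : V)) '' S) := by
      rintro _ ⟨a, ha, rfl⟩ _ ⟨b, hb, rfl⟩ hab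
      exact hS ha hb (fun h => hab (congrArg _ h))
    exact Set.countable_of_injective_of_countable_image (Subtype.val_injective.injOn) (hcl _ h1)
  have h2 : ∃ c : (G.induce W).edgeSet → ℕ, ∀ (S : Set ↥W) (hS : (G.induce W).IsClique S), S.Infinite →
      ∀ n : ℕ, ¬ ∀ (x : ↥W) (hx : x ∈ S) (y : ↥W) (hy : y ∈ S) (hxy : x ≠ y),
      c ⟨s(x, y), hS hx hy hxy⟩ = n := by
    by_contra hcon
    push Not at hcon
    exact h ⟨hcl', fun c => by
      obtain ⟨S, hS, hinf, n, hn⟩ := hcon c
      exact ⟨S, hS, hinf, n, hn⟩⟩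
  obtain ⟨c, hc⟩ := h2
  let F : ↥W → ↥W → ℕ := fun a b => if hab : (G.induce W).Adj a b then c ⟨s(a, b), hab⟩ else 0
  have hF : ∀ a b, F a b = F b a := by
    intro a b
    by_cases hab : (G.induce W).Adj a b
    · have hba := hab.symm
      simp only [F, dif_pos hab, dif_pos hba]
      congr 1
      exact Subtype.ext Sym2.eq_swap
    · have hba : ¬ (G.induce W).Adj b a := fun h => hab h.symm
      simp only [F, dif_neg hab, dif_neg hba]
  refine ⟨fun x y => if hx : x ∈ W then (if hy : y ∈ W then F ⟨x, hx⟩ ⟨y, hy⟩ else 0) else 0, ?_, ?_⟩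
  · intro x y
    by_cases hx : x ∈ W <;> by_cases hy : y ∈ W <;> simp only [dif_pos, dif_neg, hx, hy, not_false_eq_true]
    exact hF _ _
  · intro x hinj hW hadj n hn
    let y : ℕ → ↥W := fun i => ⟨x i, hW i⟩
    have hy : Function.Injective y := fun i j h => hinj (congrArg Subtype.val h)
    have hS : (G.induce W).IsClique (Set.range y) := by
      rintro _ ⟨i, rfl⟩ _ ⟨j, rfl⟩ hij
      have hne : i ≠ j := fun h => hij (by rw [h])
      exact hadj i j hne
    refine hc (Set.range y) hS (Set.infinite_range_of_injective hy) n ?_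
    rintro _ ⟨i, rfl⟩ _ ⟨j, rfl⟩ hij
    have hne : i ≠ j := fun h => hij (by rw [h])
    have h3 := hn i j hne
    simp only [hW, dif_pos] at h3
    have hadj' : (G.induce W).Adj (y i) (y j) := hadj i j hne
    have h4 : F (y i) (y j) = n := h3
    simp only [F, dif_pos hadj'] at h4
    exact h4

theorem col_of_le_continuum (G : SimpleGraph V) (W : Set V) (h : #↥W ≤ 𝔠) : Col G W := by
  classical
  have h1 : Cardinal.lift.{0} #↥W ≤ Cardinal.lift.{u} #(Set ℕ) := by
    rw [Cardinal.mk_set_nat, Cardinal.lift_continuum, Cardinal.lift_uzero]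
    exact h
  obtain ⟨e⟩ := Cardinal.lift_mk_le'.1 h1
  let E : V → Set ℕ := fun x => if hx : x ∈ W then e ⟨x, hx⟩ else ∅
  have hE : ∀ x ∈ W, ∀ y ∈ W, x ≠ y → E x ≠ E y := by
    intro x hx y hy hxy hEq
    simp only [E, dif_pos hx, dif_pos hy] at hEq
    exact hxy (congrArg Subtype.val (e.injective hEq))
  refine ⟨fun x y => sInf {n | ¬ (n ∈ E x ↔ n ∈ E y)}, ?_, ?_⟩
  · intro x y
    have hxy : {n | ¬ (n ∈ E x ↔ n ∈ E y)} = {n | ¬ (n ∈ E y ↔ n ∈ E x)} := by
      ext n
      simp only [Set.mem_ofPred_eq]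
      tauto
    simp only [hxy]
  · intro x hinj hW hadj n hn
    have key : ∀ i j, i ≠ j → ¬ (n ∈ E (x i) ↔ n ∈ E (x j)) := by
      intro i j hij
      have hne : {m | ¬ (m ∈ E (x i) ↔ m ∈ E (x j))}.Nonempty := by
        by_contra hcon
        rw [Set.not_nonempty_iff_eq_empty] at hcon
        apply hE (x i) (hW i) (x j) (hW j) (fun h => hij (hinj h))
        ext m
        by_contra hm
        have : m ∈ {m | ¬ (m ∈ E (x i) ↔ m ∈ E (x j))} := hm
        rw [hcon] at this
        exact this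
      have := Nat.sInf_mem hne
      have h5 := hn i j hij
      simp only at h5
      rw [h5] at this
      exact this
    have a := key 0 1 (by norm_num)
    have b := key 0 2 (by norm_num)
    have c := key 1 2 (by norm_num)
    tauto

/-- `t` is bad: with at most `l` exceptions, every one-vertex extension of `t` by a common neighbour
of `t` is bad (inductively, so a set with at most `l` common neighbours is bad) -/
inductive Bad (G : SimpleGraph V) (l : Cardinal.{u}) : Set V → Prop
  | mk (t A : Set V) (hA : #↥A ≤ l)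
      (h : ∀ x, x ∉ A → x ∉ t → (∀ y ∈ t, G.Adj y x) → Bad G l (insert x t)) : Bad G l t

/-- a set which contains a bad set is bad -/
theorem bad_mono (G : SimpleGraph V) (l : Cardinal.{u}) (t : Set V) (h : Bad G l t) :
    ∀ t' : Set V, t ⊆ t' → Bad G l t' := by
  induction h with
  | mk t A hA h ih =>
    intro t' htt
    refine Bad.mk t' A hA ?_
    intro x hxA hxt hadj
    exact ih x hxA (fun h => hxt (htt h)) (fun y hy => hadj y (htt hy)) _
      (Set.insert_subset_insert htt)

theorem strategy (G : SimpleGraph V) (l : Cardinal.{u}) (t : Set V) (h : Bad G l t) :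
    ∃ A : List V → Set V, (∀ L, #↥(A L) ≤ l) ∧
      ∀ x : ℕ → V, (∀ i j, i ≠ j → G.Adj (x i) (x j)) → (∀ i, x i ∉ t) →
        (∀ i, ∀ y ∈ t, G.Adj y (x i)) → ¬ (∀ n, x n ∉ A ((List.range n).map x)) := by
  classical
  induction h with
  | mk t A hA h ih =>
    choose! B hB1 hB2 using ih
    let F : List V → Set V := fun L => match L with
      | [] => A
      | x :: L' => if x ∉ A ∧ x ∉ t ∧ (∀ y ∈ t, G.Adj y x) then B x L' else A
    refine ⟨F, ?_, ?_⟩
    · intro L
      match L with
      | [] => exact hA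
      | x :: L' =>
        change #↥(if x ∉ A ∧ x ∉ t ∧ (∀ y ∈ t, G.Adj y x) then B x L' else A : Set V) ≤ l
        split_ifs with hx
        · exact hB1 x hx.1 hx.2.1 hx.2.2 L'
        · exact hA
    · intro x hadj hxt hty hall
      have h0 : x 0 ∉ A := hall 0
      have hcond : x 0 ∉ A ∧ x 0 ∉ t ∧ (∀ y ∈ t, G.Adj y (x 0)) := ⟨h0, hxt 0, hty 0⟩
      refine hB2 (x 0) hcond.1 hcond.2.1 hcond.2.2 (fun n => x (n + 1)) ?_ ?_ ?_ ?_
      · intro i j hij
        exact hadj _ _ (by omega)
      · intro i hi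
        rcases hi with hi | hi
        · exact (hadj (i + 1) 0 (by omega)).ne hi
        · exact hxt _ hi
      · intro i y hy
        rcases hy with hy | hy
        · rw [hy]
          exact hadj _ _ (by omega)
        · exact hty _ y hy
      · intro n
        have h1 := hall (n + 1)
        rw [List.range_succ_eq_map, List.map_cons, List.map_map] at h1
        have h2 : F (x 0 :: List.map (x ∘ Nat.succ) (List.range n)) =
            B (x 0) (List.map (x ∘ Nat.succ) (List.range n)) := by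
          change (if x 0 ∉ A ∧ x 0 ∉ t ∧ (∀ y ∈ t, G.Adj y (x 0)) then
            B (x 0) (List.map (x ∘ Nat.succ) (List.range n)) else A) = _
          rw [if_pos hcond]
        rw [h2] at h1
        exact h1

/-- closed sets for a function on finite sequences -/
def Closed (A : List V → Set V) (C : Set V) : Prop :=
  ∀ L : List V, (∀ z ∈ L, z ∈ C) → A L ⊆ C

theorem exists_closed (A : List V → Set V) (μ : Cardinal.{u}) (hμ : ℵ₀ ≤ μ)
    (hA : ∀ L, #↥(A L) ≤ μ) (Z : Set V) (hZ : #↥Z ≤ μ) :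
    ∃ C : Set V, Z ⊆ C ∧ Closed A C ∧ #↥C ≤ μ := by
  let st : Set V → Set V := fun Y => Y ∪ ⋃ L : List ↥Y, A (L.map Subtype.val)
  have hst : ∀ Y : Set V, #↥Y ≤ μ → #↥(st Y) ≤ μ := by
    intro Y hY
    refine (Cardinal.mk_union_le _ _).trans ?_
    refine (add_le_add hY ?_).trans (Cardinal.add_eq_self hμ).le
    refine (Cardinal.mk_iUnion_le _).trans ?_
    have h1 : #(List ↥Y) ≤ μ := (Cardinal.mk_list_le_max _).trans (max_le hμ hY)
    have h2 : (⨆ L : List ↥Y, #↥(A (L.map Subtype.val))) ≤ μ := ciSup_le' (fun L => hA _)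
    exact (mul_le_mul' h1 h2).trans (Cardinal.mul_eq_self hμ).le
  let S : ℕ → Set V := fun n => st^[n] Z
  have hS : ∀ n, #↥(S n) ≤ μ := by
    intro n
    induction n with
    | zero => exact hZ
    | succ n ih =>
      change #↥(st^[n + 1] Z) ≤ μ
      rw [Function.iterate_succ_apply']
      exact hst _ ih
  have hmono : Monotone S := by
    apply monotone_nat_of_le_succ
    intro n
    change st^[n] Z ⊆ st^[n + 1] Z
    rw [Function.iterate_succ_apply']
    exact Set.subset_union_left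
  refine ⟨⋃ n, S n, ?_, ?_, ?_⟩
  · exact Set.subset_iUnion S 0
  · intro L hL
    have h1 : ∃ n, ∀ z ∈ L, z ∈ S n := by
      induction L with
      | nil => exact ⟨0, by simp⟩
      | cons a L ih =>
        obtain ⟨n, hn⟩ := ih (fun z hz => hL z (List.mem_cons_of_mem _ hz))
        obtain ⟨m, hm⟩ := Set.mem_iUnion.1 (hL a List.mem_cons_self)
        refine ⟨max n m, ?_⟩
        intro z hz
        rcases List.mem_cons.1 hz with rfl | hz
        · exact hmono (le_max_right _ _) hm
        · exact hmono (le_max_left _ _) (hn z hz)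
    obtain ⟨n, hn⟩ := h1
    have h2 : A L ⊆ S (n + 1) := by
      change A L ⊆ st^[n + 1] Z
      rw [Function.iterate_succ_apply']
      refine Set.Subset.trans ?_ Set.subset_union_right
      let L' : List ↥(S n) := L.attach.map (fun z => ⟨z.1, hn z.1 z.2⟩)
      have h3 : L'.map Subtype.val = L := by
        simp only [L', List.map_map]
        exact List.attach_map_subtype_val L
      intro y hy
      refine Set.mem_iUnion.2 ⟨L', ?_⟩
      rw [h3]
      exact hy
    exact h2.trans (Set.subset_iUnion S (n + 1))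
  · have h1 := Cardinal.mk_iUnion_le_lift (fun n : ℕ => S n)
    rw [Cardinal.lift_uzero] at h1
    refine h1.trans ?_
    have h2 : (⨆ n : ℕ, Cardinal.lift.{0} #↥(S n)) ≤ μ := by
      refine ciSup_le' (fun n => ?_)
      rw [Cardinal.lift_uzero]
      exact hS n
    have h3 : Cardinal.lift.{u} #ℕ ≤ μ := by
      rw [Cardinal.mk_nat, Cardinal.lift_aleph0]
      exact hμ
    exact (mul_le_mul' h3 h2).trans (Cardinal.mul_eq_self hμ).le

/-- the least closed set containing `Z` -/
def cl (A : List V → Set V) (Z : Set V) : Set V := {y | ∀ C, Z ⊆ C → Closed A C → y ∈ C}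

theorem subset_cl (A : List V → Set V) (Z : Set V) : Z ⊆ cl A Z :=
  fun _ hy _ hC _ => hC hy

theorem cl_mono (A : List V → Set V) {Z Z' : Set V} (h : Z ⊆ Z') : cl A Z ⊆ cl A Z' := by
  intro y hy C hC hcl
  exact hy C (h.trans hC) hcl

theorem cl_closed (A : List V → Set V) (Z : Set V) : Closed A (cl A Z) := by
  intro L hL y hy C hC hcl
  exact hcl L (fun z hz => hL z hz C hC hcl) hy

theorem mk_cl (A : List V → Set V) (μ : Cardinal.{u}) (hμ : ℵ₀ ≤ μ)
    (hA : ∀ L, #↥(A L) ≤ μ) (Z : Set V) (hZ : #↥Z ≤ μ) : #↥(cl A Z) ≤ μ := by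
  obtain ⟨C, h1, h2, h3⟩ := exists_closed A μ hμ hA Z hZ
  have h4 : cl A Z ⊆ C := by
    intro y hy
    exact hy C h1 h2
  exact (Cardinal.mk_le_mk_of_subset h4).trans h3

theorem exists_increasing {α : Type u} [LinearOrder α] [WellFoundedLT α] (f : ℕ → α)
    (h : ∀ i j, i ≠ j → f i ≠ f j) : ∃ g : ℕ → ℕ, StrictMono g ∧ StrictMono (fun n => f (g n)) := by
  obtain ⟨g, hg | hg⟩ := exists_increasing_or_nonincreasing_subseq (· < ·) f
  · exact ⟨g, g.strictMono, fun m n hmn => hg m n hmn⟩
  · exfalso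
    obtain ⟨_, ⟨n, rfl⟩, hmin⟩ := WellFounded.has_min (wellFounded_lt (α := α))
      (Set.range (fun n => f (g n))) ⟨_, ⟨0, rfl⟩⟩
    have h1 := hg n (n + 1) (Nat.lt_succ_self n)
    have h2 := hmin (f (g (n + 1))) ⟨n + 1, rfl⟩
    have h3 : g n ≠ g (n + 1) := fun h => absurd (g.injective h) (by omega)
    rcases lt_trichotomy (f (g n)) (f (g (n + 1))) with h4 | h4 | h4
    · exact h1 h4
    · exact h _ _ h3 h4
    · exact h2 h4

theorem col_step (G : SimpleGraph V) (l : Cardinal.{u}) (A : List V → Set V)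
    (hA : ∀ L, #↥(A L) ≤ l)
    (hstr : ∀ x : ℕ → V, (∀ i j, i ≠ j → G.Adj (x i) (x j)) →
      ¬ (∀ n, x n ∉ A ((List.range n).map x)))
    (W : Set V) (hl : l < #↥W) (h0 : ℵ₀ < #↥W)
    (ih : ∀ W' : Set V, #↥W' < #↥W → Col G W') : Col G W := by
  classical
  obtain ⟨_, _, hord⟩ := Cardinal.exists_ord_eq_type_lt ↥W
  let Z : ↥W → Set V := fun x => Subtype.val '' (Set.Iic x)
  have hZ : ∀ x, #↥(Z x) < #↥W := by
    intro x
    refine (Cardinal.mk_image_le).trans_lt ?_
    have h1 : Set.Iic x = insert x (Set.Iio x) := by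
      ext y
      simp only [Set.mem_Iic, Set.mem_insert_iff, Set.mem_Iio]
      exact le_iff_eq_or_lt
    rw [h1]
    refine (Cardinal.mk_insert_le).trans_lt ?_
    exact Cardinal.add_lt_of_lt h0.le (Cardinal.mk_Iio_lt x hord)
      (Cardinal.one_lt_aleph0.trans h0)
  let C : ↥W → Set V := fun x => cl A (Z x)
  have hC : ∀ x, #↥(C x) < #↥W := by
    intro x
    have h1 : #↥(C x) ≤ max (max #↥(Z x) l) ℵ₀ :=
      mk_cl A _ (le_max_right _ _) (fun L => (hA L).trans ((le_max_right _ _).trans (le_max_left _ _)))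
        (Z x) ((le_max_left _ _).trans (le_max_left _ _))
    exact h1.trans_lt (max_lt (max_lt (hZ x) hl) h0)
  have hCmono : ∀ x y, x ≤ y → C x ⊆ C y := by
    intro x y hxy
    apply cl_mono
    apply Set.image_mono
    intro z hz
    exact le_trans hz hxy
  have hmem : ∀ x : ↥W, (x : V) ∈ C x := by
    intro x
    exact subset_cl A _ ⟨x, le_refl x, rfl⟩
  have hne : Nonempty ↥W := by
    by_contra hcon
    rw [not_nonempty_iff] at hcon
    rw [Cardinal.mk_eq_zero] at h0
    exact absurd h0 (not_lt.2 (Cardinal.aleph0_pos).le)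
  obtain ⟨w0⟩ := hne
  have hρ : ∀ y : V, ∃ x : ↥W, y ∈ W → (y ∈ C x ∧ ∀ x', x' < x → y ∉ C x') := by
    intro y
    by_cases hy : y ∈ W
    · obtain ⟨x, hx, hmin⟩ := WellFounded.has_min (wellFounded_lt (α := ↥W))
        {x | y ∈ C x} ⟨⟨y, hy⟩, hmem ⟨y, hy⟩⟩
      exact ⟨x, fun _ => ⟨hx, fun x' hx' h => hmin x' h hx'⟩⟩
    · exact ⟨w0, fun h => absurd h hy⟩
  choose ρ hρ using hρ
  choose F hF1 hF2 using fun x => ih (C x) (hC x)
  refine ⟨fun x y => if ρ x = ρ y then F (ρ x) x y + 1 else 0, ?_, ?_⟩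
  · intro x y
    by_cases hxy : ρ x = ρ y
    · simp only [hxy, if_true]
      rw [hF1]
    · simp only [if_neg hxy, if_neg (Ne.symm hxy)]
  · intro x hinj hW hadj n hn
    cases n with
    | succ m =>
      have h1 : ∀ i j, i ≠ j → ρ (x i) = ρ (x j) ∧ F (ρ (x i)) (x i) (x j) = m := by
        intro i j hij
        have h2 := hn i j hij
        simp only at h2
        split_ifs at h2 with h3
        exact ⟨h3, by omega⟩
      have h2 : ∀ i, ρ (x i) = ρ (x 0) := by
        intro i
        by_cases hi : i = 0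
        · rw [hi]
        · exact (h1 i 0 hi).1
      refine hF2 (ρ (x 0)) x hinj ?_ hadj m ?_
      · intro i
        rw [← h2 i]
        exact (hρ (x i) (hW i)).1
      · intro i j hij
        have h3 := (h1 i j hij).2
        rw [h2 i] at h3
        exact h3
    | zero =>
      have h1 : ∀ i j, i ≠ j → ρ (x i) ≠ ρ (x j) := by
        intro i j hij h3
        have h2 := hn i j hij
        simp only [if_pos h3] at h2
        omega
      obtain ⟨g, hg1, hg2⟩ := exists_increasing (fun i => ρ (x i)) h1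
      refine hstr (fun n => x (g (n + 1))) ?_ ?_
      · intro i j hij
        apply hadj
        intro h
        have := hg1.injective h
        omega
      · intro n hn'
        have h3 : A ((List.range n).map (fun n => x (g (n + 1)))) ⊆ C (ρ (x (g n))) := by
          apply cl_closed
          intro z hz
          obtain ⟨i, hi, rfl⟩ := List.mem_map.1 hz
          rw [List.mem_range] at hi
          have h4 : ρ (x (g (i + 1))) ≤ ρ (x (g n)) := hg2.monotone (by omega)
          exact hCmono _ _ h4 (hρ _ (hW _)).1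
        have h5 := (hρ (x (g (n + 1))) (hW _)).2 (ρ (x (g n))) (hg2 (Nat.lt_succ_self n))
        exact h5 (h3 hn')

theorem col_of_bad (G : SimpleGraph V) (l : Cardinal.{u})
    (hl : ∀ W : Set V, #↥W ≤ l → Col G W) (hbad : Bad G l ∅) (W : Set V) : Col G W := by
  obtain ⟨A, hA, hstr⟩ := strategy G l ∅ hbad
  have key : ∀ κ : Cardinal.{u}, ∀ W : Set V, #↥W = κ → Col G W := by
    intro κ
    induction κ using WellFoundedLT.induction with
    | ind κ ih =>
      intro W hW
      by_cases h1 : #↥W ≤ l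
      · exact hl W h1
      by_cases h2 : #↥W ≤ 𝔠
      · exact col_of_le_continuum G W h2
      push Not at h1 h2
      refine col_step G l A hA ?_ W h1 (Cardinal.aleph0_lt_continuum.trans h2) ?_
      · intro x hadj
        exact hstr x hadj (fun i h => h) (fun i y hy => absurd hy (Set.notMem_empty y))
      · intro W' hW'
        exact ih _ (hW ▸ hW') W' rfl
  exact key _ W rfl

/-- In a good graph the empty set is not bad. -/
theorem not_bad (G : SimpleGraph V) (hG : Good G) (l : Cardinal.{u})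
    (hl : l ≤ 𝔠 ∨ ∀ W : Set V, #↥W ≤ l → ¬ Good (G.induce W)) : ¬ Bad G l ∅ := by
  intro hbad
  have h1 : ∀ W : Set V, #↥W ≤ l → Col G W := by
    intro W hW
    rcases hl with hl | hl
    · exact col_of_le_continuum G W (hW.trans hl)
    · exact col_of_not_good G hG.1 W (hl W hW)
  obtain ⟨f, hf1, hf2⟩ := col_of_bad G l h1 hbad Set.univ
  exact not_good_of G f hf1 (fun x hinj hadj n => hf2 x hinj (fun i => Set.mem_univ _) hadj n) hG

/-- the edges of colour `n` -/
def colGraph (G : SimpleGraph V) (c : G.edgeSet → ℕ) (n : ℕ) : SimpleGraph V where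
  Adj x y := ∃ h : G.Adj x y, c ⟨s(x, y), h⟩ = n
  symm := ⟨by
    rintro x y ⟨h, hc⟩
    refine ⟨h.symm, ?_⟩
    rw [← hc]
    congr 1
    exact Subtype.ext Sym2.eq_swap⟩
  loopless := ⟨by
    rintro x ⟨h, -⟩
    exact G.loopless.irrefl x h⟩

theorem colGraph_le (G : SimpleGraph V) (c : G.edgeSet → ℕ) (n : ℕ) : colGraph G c n ≤ G := by
  rintro x y ⟨h, -⟩
  exact h

/-- goodness of a spanning subgraph implies goodness, if the cliques are countable -/
theorem good_mono {W : Type u} (G H : SimpleGraph W) (h : H ≤ G)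
    (hcl : ∀ S : Set W, G.IsClique S → S.Countable) (hH : Good H) : Good G := by
  refine ⟨hcl, fun c => ?_⟩
  obtain ⟨S, hS, hinf, n, hn⟩ := hH.2 (fun e => c ⟨e.1, SimpleGraph.edgeSet_mono h e.2⟩)
  refine ⟨S, fun x hx y hy hxy => h (hS hx hy hxy), hinf, n, ?_⟩
  intro x hx y hy hxy
  exact hn x hx y hy hxy

/-- some colour class of a good graph is good -/
theorem exists_good_color (G : SimpleGraph V) (hG : Good G) (c : G.edgeSet → ℕ) :
    ∃ n, Good (colGraph G c n) := by
  classical
  by_contra hcon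
  push Not at hcon
  have hcl : ∀ n, ∀ S : Set V, (colGraph G c n).IsClique S → S.Countable :=
    fun n S hS => hG.1 S (fun x hx y hy hxy => colGraph_le G c n (hS hx hy hxy))
  have h2 : ∀ n, ∃ d : (colGraph G c n).edgeSet → ℕ, ∀ (S : Set V)
      (hS : (colGraph G c n).IsClique S), S.Infinite →
      ∀ m : ℕ, ¬ ∀ (x : V) (hx : x ∈ S) (y : V) (hy : y ∈ S) (hxy : x ≠ y),
      d ⟨s(x, y), hS hx hy hxy⟩ = m := by
    intro n
    by_contra hcon2
    push Not at hcon2
    exact hcon n ⟨hcl n, fun d => by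
      obtain ⟨S, hS, hinf, m, hm⟩ := hcon2 d
      exact ⟨S, hS, hinf, m, hm⟩⟩
  choose d hd using h2
  obtain ⟨S, hS, hinf, n, hn⟩ := hG.2 (fun e => Nat.pair (c e)
    (if h : e.1 ∈ (colGraph G c (c e)).edgeSet then d (c e) ⟨e.1, h⟩ else 0))
  have hS' : (colGraph G c n.unpair.1).IsClique S := by
    intro x hx y hy hxy
    refine ⟨hS hx hy hxy, ?_⟩
    have := hn x hx y hy hxy
    have h3 := congrArg (fun k => k.unpair.1) this
    simpa using h3
  refine hd n.unpair.1 S hS' hinf n.unpair.2 ?_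
  intro x hx y hy hxy
  have h1 := hn x hx y hy hxy
  have hc1 : c ⟨s(x, y), hS hx hy hxy⟩ = n.unpair.1 := by
    have h3 := congrArg (fun k => k.unpair.1) h1
    simpa using h3
  have h4 := congrArg (fun k => k.unpair.2) h1
  simp only [Nat.unpair_pair] at h4
  have hmem : ∀ m, c ⟨s(x, y), hS hx hy hxy⟩ = m → s(x, y) ∈ (colGraph G c m).edgeSet := by
    intro m hm
    exact ⟨hS hx hy hxy, hm⟩
  rw [dif_pos (hmem _ rfl)] at h4
  rw [← h4]
  have gen : ∀ m (hm : c ⟨s(x, y), hS hx hy hxy⟩ = m) (h5 : s(x, y) ∈ (colGraph G c m).edgeSet)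
      (h6 : s(x, y) ∈ (colGraph G c (c ⟨s(x, y), hS hx hy hxy⟩)).edgeSet),
      d m ⟨s(x, y), h5⟩ = d (c ⟨s(x, y), hS hx hy hxy⟩) ⟨s(x, y), h6⟩ := by
    intro m hm h5 h6
    subst hm
    rfl
  exact gen _ hc1 _ _

theorem main (G : SimpleGraph V) (hG : Good G) (l : Cardinal.{u})
    (hl : l ≤ 𝔠 ∨ ∀ W : Set V, #↥W ≤ l → ¬ Good (G.induce W)) (c : G.edgeSet → ℕ) :
    ∃ (n : ℕ) (T : Set (Set V)), ∅ ∈ T ∧ (∀ t ∈ T, ∀ t' ⊆ t, t' ∈ T) ∧
      (∀ t ∈ T, t.Finite ∧ ∀ x ∈ t, ∀ y ∈ t, x ≠ y → ∃ h : G.Adj x y, c ⟨s(x, y), h⟩ = n) ∧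
      ∀ t ∈ T, l < #{x : V // x ∉ t ∧ insert x t ∈ T} := by
  obtain ⟨n, hn⟩ := exists_good_color G hG c
  have hl' : l ≤ 𝔠 ∨ ∀ W : Set V, #↥W ≤ l → ¬ Good ((colGraph G c n).induce W) := by
    rcases hl with hl | hl
    · exact Or.inl hl
    · right
      intro W hW hgood
      refine hl W hW ?_
      refine good_mono (G.induce W) ((colGraph G c n).induce W) ?_ ?_ hgood
      · intro x y hxy
        exact colGraph_le G c n hxy
      · intro S hS
        have h1 : G.IsClique ((fun x : ↥W => (x : V)) '' S) := by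
          rintro _ ⟨a, ha, rfl⟩ _ ⟨b, hb, rfl⟩ hab
          exact hS ha hb (fun h => hab (congrArg _ h))
        exact Set.countable_of_injective_of_countable_image (Subtype.val_injective.injOn)
          (hG.1 _ h1)
  have hroot := not_bad (colGraph G c n) hn l hl'
  refine ⟨n, {t | t.Finite ∧ (colGraph G c n).IsClique t ∧ ¬ Bad (colGraph G c n) l t}, ?_, ?_,
    ?_, ?_⟩
  · exact ⟨Set.finite_empty, by intro x hx; exact absurd hx (Set.notMem_empty x), hroot⟩
  · rintro t ⟨h1, h2, h3⟩ t' ht'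
    exact ⟨h1.subset ht', fun x hx y hy hxy => h2 (ht' hx) (ht' hy) hxy,
      fun h => h3 (bad_mono _ l t' h t ht')⟩
  · rintro t ⟨h1, h2, -⟩
    exact ⟨h1, fun x hx y hy hxy => h2 hx hy hxy⟩
  · rintro t ⟨h1, h2, h3⟩
    by_contra hcon
    push Not at hcon
    apply h3
    refine Bad.mk t {x : V | x ∉ t ∧ insert x t ∈ {t : Set V | t.Finite ∧
      (colGraph G c n).IsClique t ∧ ¬ Bad (colGraph G c n) l t}} hcon ?_
    intro x hxA hxt hadj
    by_contra hnb
    refine hxA ⟨hxt, h1.insert x, ?_, hnb⟩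
    rintro a ha b hb hab
    rcases ha with rfl | ha
    · rcases hb with rfl | hb
      · exact absurd rfl hab
      · exact (hadj b hb).symm
    · rcases hb with rfl | hb
      · exact hadj a ha
      · exact h2 ha hb hab

end Pool.Agent.Lib.MP_e45b43_lc.Tree
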