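import Mathlib
import Pool.Agent.Lib.MP_e45b43_lc.Basic
import Pool.Agent.Lib.MP_e45b43_lc.Tree

/-!
Tools for the good clique complex theorem: the colouring which kills the infinite cliques all of
whose infinite subsets have finite bad subsets.
-/

universe u

namespace Pool.Agent.Lib.MP_e45b43_lc.Tree

open Cardinal Set Pool.Agent.Lib.MP_e45b43_lc

variable {V : Type u}

/-- every subsequence of `x` has a bad initial segment -/
def HB (G : SimpleGraph V) (l : Cardinal.{u}) (x : ℕ → V) : Prop :=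
  ∀ g : ℕ → ℕ, StrictMono g → ∃ m : ℕ, Bad G l ((fun i => x (g i)) '' Set.Iio m)

/-- `A` has a symmetric colouring of pairs without a monochromatic injective sequence of pairwise
adjacent vertices of `A` all of whose subsequences have bad initial segments. -/
def ColB (G : SimpleGraph V) (l : Cardinal.{u}) (A : Set V) : Prop :=
  ∃ f : V → V → ℕ, (∀ x y, f x y = f y x) ∧
    ∀ x : ℕ → V, Function.Injective x → (∀ i, x i ∈ A) → (∀ i j, i ≠ j → G.Adj (x i) (x j)) →
      HB G l x → ∀ n, ¬ (∀ i j, i ≠ j → f (x i) (x j) = n)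

theorem colB_of_col (G : SimpleGraph V) (l : Cardinal.{u}) (A : Set V) (h : Col G A) :
    ColB G l A := by
  obtain ⟨f, hf1, hf2⟩ := h
  exact ⟨f, hf1, fun x h1 h2 h3 _ n => hf2 x h1 h2 h3 n⟩

/-- strategies for all bad sets at once -/
theorem strategies (G : SimpleGraph V) (l : Cardinal.{u}) :
    ∃ A : List V → List V → Set V, (∀ K L, #↥(A K L) ≤ l) ∧
      ∀ K : List V, Bad G l {y | y ∈ K} →
      ∀ x : ℕ → V, (∀ i j, i ≠ j → G.Adj (x i) (x j)) → (∀ i, x i ∉ K) →
        (∀ i, ∀ y ∈ K, G.Adj y (x i)) → ¬ (∀ n, x n ∉ A K ((List.range n).map x)) := by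
  classical
  have h : ∀ K : List V, ∃ A : List V → Set V, (∀ L, #↥(A L) ≤ l) ∧ (Bad G l {y | y ∈ K} →
      ∀ x : ℕ → V, (∀ i j, i ≠ j → G.Adj (x i) (x j)) → (∀ i, x i ∉ K) →
        (∀ i, ∀ y ∈ K, G.Adj y (x i)) → ¬ (∀ n, x n ∉ A ((List.range n).map x))) := by
    intro K
    by_cases hK : Bad G l {y | y ∈ K}
    · obtain ⟨A, h1, h2⟩ := strategy G l _ hK
      exact ⟨A, h1, fun _ x h3 h4 h5 => h2 x h3 h4 h5⟩
    · refine ⟨fun _ => ∅, fun L => ?_, fun h => absurd h hK⟩
      simp
  choose A h1 h2 using h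
  exact ⟨A, h1, h2⟩

/-- closed sets for a function on pairs of finite sequences -/
def Closed2 (A : List V → List V → Set V) (C : Set V) : Prop :=
  ∀ K L : List V, (∀ z ∈ K, z ∈ C) → (∀ z ∈ L, z ∈ C) → A K L ⊆ C

theorem exists_closed2 (A : List V → List V → Set V) (μ : Cardinal.{u}) (hμ : ℵ₀ ≤ μ)
    (hA : ∀ K L, #↥(A K L) ≤ μ) (Z : Set V) (hZ : #↥Z ≤ μ) :
    ∃ C : Set V, Z ⊆ C ∧ Closed2 A C ∧ #↥C ≤ μ := by
  let st : Set V → Set V := fun Y => Y ∪ ⋃ p : List ↥Y × List ↥Y,
    A (p.1.map Subtype.val) (p.2.map Subtype.val)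
  have hst : ∀ Y : Set V, #↥Y ≤ μ → #↥(st Y) ≤ μ := by
    intro Y hY
    refine (Cardinal.mk_union_le _ _).trans ?_
    refine (add_le_add hY ?_).trans (Cardinal.add_eq_self hμ).le
    refine (Cardinal.mk_iUnion_le _).trans ?_
    have h0 : #(List ↥Y) ≤ μ := (Cardinal.mk_list_le_max _).trans (max_le hμ hY)
    have h1 : #(List ↥Y × List ↥Y) ≤ μ := by
      rw [Cardinal.mk_prod, Cardinal.lift_id]
      exact (mul_le_mul' h0 h0).trans (Cardinal.mul_eq_self hμ).le
    have h2 : (⨆ p : List ↥Y × List ↥Y, #↥(A (p.1.map Subtype.val) (p.2.map Subtype.val))) ≤ μ :=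
      ciSup_le' (fun p => hA _ _)
    exact (mul_le_mul' h1 h2).trans (Cardinal.mul_eq_self hμ).le
  let S : ℕ → Set V := fun n => st^[n] Z
  have hS : ∀ n, #↥(S n) ≤ μ := by
    intro n
    induction n with
    | zero => exact hZ
    | succ n ih =>
      change #↥(st^[n + 1] Z) ≤ μ
      rw [Function.iterate_succ_apply']
      exact hst _ ih
  have hmono : Monotone S := by
    apply monotone_nat_of_le_succ
    intro n
    change st^[n] Z ⊆ st^[n + 1] Z
    rw [Function.iterate_succ_apply']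
    exact Set.subset_union_left
  have hlist : ∀ L : List V, (∀ z ∈ L, z ∈ ⋃ n, S n) → ∃ n, ∀ z ∈ L, z ∈ S n := by
    intro L hL
    induction L with
    | nil => exact ⟨0, by simp⟩
    | cons a L ih =>
      obtain ⟨n, hn⟩ := ih (fun z hz => hL z (List.mem_cons_of_mem _ hz))
      obtain ⟨m, hm⟩ := Set.mem_iUnion.1 (hL a List.mem_cons_self)
      refine ⟨max n m, ?_⟩
      intro z hz
      rcases List.mem_cons.1 hz with rfl | hz
      · exact hmono (le_max_right _ _) hm
      · exact hmono (le_max_left _ _) (hn z hz)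
  refine ⟨⋃ n, S n, ?_, ?_, ?_⟩
  · exact Set.subset_iUnion S 0
  · intro K L hK hL
    obtain ⟨n1, hn1⟩ := hlist K hK
    obtain ⟨n2, hn2⟩ := hlist L hL
    have hKn : ∀ z ∈ K, z ∈ S (max n1 n2) := fun z hz => hmono (le_max_left _ _) (hn1 z hz)
    have hLn : ∀ z ∈ L, z ∈ S (max n1 n2) := fun z hz => hmono (le_max_right _ _) (hn2 z hz)
    have h2 : A K L ⊆ S (max n1 n2 + 1) := by
      change A K L ⊆ st^[max n1 n2 + 1] Z
      rw [Function.iterate_succ_apply']
      refine Set.Subset.trans ?_ Set.subset_union_right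
      let K' : List ↥(S (max n1 n2)) := K.attach.map (fun z => ⟨z.1, hKn z.1 z.2⟩)
      let L' : List ↥(S (max n1 n2)) := L.attach.map (fun z => ⟨z.1, hLn z.1 z.2⟩)
      have h3 : K'.map Subtype.val = K := by
        simp only [K', List.map_map]
        exact List.attach_map_subtype_val K
      have h4 : L'.map Subtype.val = L := by
        simp only [L', List.map_map]
        exact List.attach_map_subtype_val L
      intro y hy
      refine Set.mem_iUnion.2 ⟨(K', L'), ?_⟩
      change y ∈ A (K'.map Subtype.val) (L'.map Subtype.val)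
      rw [h3, h4]
      exact hy
    exact h2.trans (Set.subset_iUnion S (max n1 n2 + 1))
  · have h1 := Cardinal.mk_iUnion_le_lift (fun n : ℕ => S n)
    rw [Cardinal.lift_uzero] at h1
    refine h1.trans ?_
    have h2 : (⨆ n : ℕ, Cardinal.lift.{0} #↥(S n)) ≤ μ := by
      refine ciSup_le' (fun n => ?_)
      rw [Cardinal.lift_uzero]
      exact hS n
    have h3 : Cardinal.lift.{u} #ℕ ≤ μ := by
      rw [Cardinal.mk_nat, Cardinal.lift_aleph0]
      exact hμ
    exact (mul_le_mul' h3 h2).trans (Cardinal.mul_eq_self hμ).le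

/-- the least closed set containing `Z` -/
def cl2 (A : List V → List V → Set V) (Z : Set V) : Set V :=
  {y | ∀ C, Z ⊆ C → Closed2 A C → y ∈ C}

theorem subset_cl2 (A : List V → List V → Set V) (Z : Set V) : Z ⊆ cl2 A Z :=
  fun _ hy _ hC _ => hC hy

theorem cl2_mono (A : List V → List V → Set V) {Z Z' : Set V} (h : Z ⊆ Z') :
    cl2 A Z ⊆ cl2 A Z' := by
  intro y hy C hC hcl
  exact hy C (h.trans hC) hcl

theorem cl2_closed (A : List V → List V → Set V) (Z : Set V) : Closed2 A (cl2 A Z) := by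
  intro K L hK hL y hy C hC hcl
  exact hcl K L (fun z hz => hK z hz C hC hcl) (fun z hz => hL z hz C hC hcl) hy

theorem mk_cl2 (A : List V → List V → Set V) (μ : Cardinal.{u}) (hμ : ℵ₀ ≤ μ)
    (hA : ∀ K L, #↥(A K L) ≤ μ) (Z : Set V) (hZ : #↥Z ≤ μ) : #↥(cl2 A Z) ≤ μ := by
  obtain ⟨C, h1, h2, h3⟩ := exists_closed2 A μ hμ hA Z hZ
  have h4 : cl2 A Z ⊆ C := by
    intro y hy
    exact hy C h1 h2
  exact (Cardinal.mk_le_mk_of_subset h4).trans h3

theorem colB_step (G : SimpleGraph V) (l : Cardinal.{u})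
    (W : Set V) (hl : l < #↥W) (h0 : ℵ₀ < #↥W)
    (ih : ∀ W' : Set V, #↥W' < #↥W → ColB G l W') : ColB G l W := by
  classical
  obtain ⟨A, hA, hstr⟩ := strategies G l
  obtain ⟨_, _, hord⟩ := Cardinal.exists_ord_eq_type_lt ↥W
  let Z : ↥W → Set V := fun x => Subtype.val '' (Set.Iic x)
  have hZ : ∀ x, #↥(Z x) < #↥W := by
    intro x
    refine (Cardinal.mk_image_le).trans_lt ?_
    have h1 : Set.Iic x = insert x (Set.Iio x) := by
      ext y
      simp only [Set.mem_Iic, Set.mem_insert_iff, Set.mem_Iio]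
      exact le_iff_eq_or_lt
    rw [h1]
    refine (Cardinal.mk_insert_le).trans_lt ?_
    exact Cardinal.add_lt_of_lt h0.le (Cardinal.mk_Iio_lt x hord)
      (Cardinal.one_lt_aleph0.trans h0)
  let C : ↥W → Set V := fun x => cl2 A (Z x)
  have hC : ∀ x, #↥(C x) < #↥W := by
    intro x
    have h1 : #↥(C x) ≤ max (max #↥(Z x) l) ℵ₀ :=
      mk_cl2 A _ (le_max_right _ _)
        (fun K L => (hA K L).trans ((le_max_right _ _).trans (le_max_left _ _)))
        (Z x) ((le_max_left _ _).trans (le_max_left _ _))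
    exact h1.trans_lt (max_lt (max_lt (hZ x) hl) h0)
  have hCmono : ∀ x y, x ≤ y → C x ⊆ C y := by
    intro x y hxy
    apply cl2_mono
    apply Set.image_mono
    intro z hz
    exact le_trans hz hxy
  have hmem : ∀ x : ↥W, (x : V) ∈ C x := by
    intro x
    exact subset_cl2 A _ ⟨x, le_refl x, rfl⟩
  have hne : Nonempty ↥W := by
    by_contra hcon
    rw [not_nonempty_iff] at hcon
    rw [Cardinal.mk_eq_zero] at h0
    exact absurd h0 (not_lt.2 (Cardinal.aleph0_pos).le)
  obtain ⟨w0⟩ := hne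
  have hρ : ∀ y : V, ∃ x : ↥W, y ∈ W → (y ∈ C x ∧ ∀ x', x' < x → y ∉ C x') := by
    intro y
    by_cases hy : y ∈ W
    · obtain ⟨x, hx, hmin⟩ := WellFounded.has_min (wellFounded_lt (α := ↥W))
        {x | y ∈ C x} ⟨⟨y, hy⟩, hmem ⟨y, hy⟩⟩
      exact ⟨x, fun _ => ⟨hx, fun x' hx' h => hmin x' h hx'⟩⟩
    · exact ⟨w0, fun h => absurd h hy⟩
  choose ρ hρ using hρ
  choose F hF1 hF2 using fun x => ih (C x) (hC x)
  refine ⟨fun x y => if ρ x = ρ y then F (ρ x) x y + 1 else 0, ?_, ?_⟩
  · intro x y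
    by_cases hxy : ρ x = ρ y
    · simp only [hxy, if_true]
      rw [hF1]
    · simp only [if_neg hxy, if_neg (Ne.symm hxy)]
  · intro x hinj hW hadj hHB n hn
    cases n with
    | succ m =>
      have h1 : ∀ i j, i ≠ j → ρ (x i) = ρ (x j) ∧ F (ρ (x i)) (x i) (x j) = m := by
        intro i j hij
        have h2 := hn i j hij
        simp only at h2
        split_ifs at h2 with h3
        exact ⟨h3, by omega⟩
      have h2 : ∀ i, ρ (x i) = ρ (x 0) := by
        intro i
        by_cases hi : i = 0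
        · rw [hi]
        · exact (h1 i 0 hi).1
      refine hF2 (ρ (x 0)) x hinj ?_ hadj hHB m ?_
      · intro i
        rw [← h2 i]
        exact (hρ (x i) (hW i)).1
      · intro i j hij
        have h3 := (h1 i j hij).2
        rw [h2 i] at h3
        exact h3
    | zero =>
      have h1 : ∀ i j, i ≠ j → ρ (x i) ≠ ρ (x j) := by
        intro i j hij h3
        have h2 := hn i j hij
        simp only [if_pos h3] at h2
        omega
      obtain ⟨g, hg1, hg2⟩ := exists_increasing (fun i => ρ (x i)) h1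
      obtain ⟨m, hm⟩ := hHB g hg1
      have hin : ∀ i n, i ≤ n → x (g i) ∈ C (ρ (x (g n))) := by
        intro i n hin
        exact hCmono _ _ (hg2.monotone hin) (hρ _ (hW _)).1
      let K : List V := (List.range m).map (fun i => x (g i))
      have hK : {y | y ∈ K} = (fun i => x (g i)) '' Set.Iio m := by
        ext y
        simp only [K, Set.mem_ofPred_eq, List.mem_map, List.mem_range, Set.mem_image, Set.mem_Iio]
      have hKmem : ∀ z ∈ K, ∃ i, i < m ∧ x (g i) = z := by
        intro z hz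
        obtain ⟨i, hi, rfl⟩ := List.mem_map.1 hz
        exact ⟨i, List.mem_range.1 hi, rfl⟩
      refine hstr K (hK ▸ hm) (fun n => x (g (m + n + 1))) ?_ ?_ ?_ ?_
      · intro i j hij
        apply hadj
        intro h
        have := hg1.injective h
        omega
      · intro i hi
        obtain ⟨j, hj, hij⟩ := hKmem _ hi
        have h2 := hg1.injective (hinj hij)
        omega
      · intro i y hy
        obtain ⟨j, hj, rfl⟩ := hKmem _ hy
        apply hadj
        intro h
        have := hg1.injective h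
        omega
      · intro n hn'
        have h3 : A K ((List.range n).map (fun n => x (g (m + n + 1)))) ⊆
            C (ρ (x (g (m + n)))) := by
          apply cl2_closed
          · intro z hz
            obtain ⟨i, hi, rfl⟩ := hKmem _ hz
            exact hin _ _ (by omega)
          · intro z hz
            obtain ⟨i, hi, rfl⟩ := List.mem_map.1 hz
            rw [List.mem_range] at hi
            exact hin _ _ (by omega)
        have h5 := (hρ (x (g (m + n + 1))) (hW _)).2 (ρ (x (g (m + n))))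
          (hg2 (Nat.lt_succ_self (m + n)))
        exact h5 (h3 hn')

theorem colB_all (G : SimpleGraph V) (l : Cardinal.{u})
    (hl : ∀ W : Set V, #↥W ≤ l → Col G W) (W : Set V) : ColB G l W := by
  have key : ∀ κ : Cardinal.{u}, ∀ W : Set V, #↥W = κ → ColB G l W := by
    intro κ
    induction κ using WellFoundedLT.induction with
    | ind κ ih =>
      intro W hW
      by_cases h1 : #↥W ≤ l
      · exact colB_of_col G l W (hl W h1)
      by_cases h2 : #↥W ≤ 𝔠
      · exact colB_of_col G l W (col_of_le_continuum G W h2)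
      push Not at h1 h2
      refine colB_step G l W h1 (Cardinal.aleph0_lt_continuum.trans h2) ?_
      intro W' hW'
      exact ih _ (hW ▸ hW') W' rfl
  exact key _ W rfl

/-- In a good graph, for every colouring some infinite monochromatic clique has no finite bad
subset. -/
theorem exists_clique (G : SimpleGraph V) (hG : Good G) (l : Cardinal.{u})
    (hl : l ≤ 𝔠 ∨ ∀ W : Set V, #↥W ≤ l → ¬ Good (G.induce W)) (d : G.edgeSet → ℕ) :
    ∃ (S : Set V) (hS : G.IsClique S), S.Infinite ∧ (∀ t ⊆ S, t.Finite → ¬ Bad G l t) ∧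
      ∃ k : ℕ, ∀ (x : V) (hx : x ∈ S) (y : V) (hy : y ∈ S) (hxy : x ≠ y),
        d ⟨s(x, y), hS hx hy hxy⟩ = k := by
  have h1 : ∀ W : Set V, #↥W ≤ l → Col G W := by
    intro W hW
    rcases hl with hl | hl
    · exact col_of_le_continuum G W (hW.trans hl)
    · exact col_of_not_good G hG.1 W (hl W hW)
  obtain ⟨f, hf1, hf2⟩ := colB_all G l h1 Set.univ
  obtain ⟨S, hS, hinf, n, hn⟩ := hG.2 (fun e => Nat.pair (d e) (Sym2.lift ⟨f, hf1⟩ e.1))
  let e := hinf.natEmbedding
  let x : ℕ → V := fun i => (e i : V)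
  have hxinj : Function.Injective x := fun i j hij => e.injective (Subtype.ext hij)
  have hxS : ∀ i, x i ∈ S := fun i => (e i).2
  have hadj : ∀ i j, i ≠ j → G.Adj (x i) (x j) := by
    intro i j hij
    exact hS (hxS i) (hxS j) (fun h => hij (hxinj h))
  have hfn : ∀ i j, i ≠ j → f (x i) (x j) = n.unpair.2 := by
    intro i j hij
    have h3 := hn (x i) (hxS i) (x j) (hxS j) (fun h => hij (hxinj h))
    have h4 := congrArg (fun k => k.unpair.2) h3
    simpa using h4
  have hnot : ¬ HB G l x := by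
    intro hHB
    exact hf2 x hxinj (fun i => Set.mem_univ _) hadj hHB _ hfn
  unfold HB at hnot
  push Not at hnot
  obtain ⟨g, hg, hgb⟩ := hnot
  have hsub : Set.range (fun i => x (g i)) ⊆ S := by
    rintro _ ⟨i, rfl⟩
    exact hxS _
  refine ⟨Set.range (fun i => x (g i)), fun a ha b hb hab => hS (hsub ha) (hsub hb) hab,
    Set.infinite_range_of_injective (fun i j hij => hg.injective (hxinj hij)), ?_,
    n.unpair.1, ?_⟩
  · intro t ht hfin hbad
    have h3 : ∃ m, t ⊆ (fun i => x (g i)) '' Set.Iio m := by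
      have h4 : ∀ y ∈ t, ∃ i, x (g i) = y := fun y hy => ht hy
      choose! i hi using h4
      obtain ⟨m, hm⟩ := (hfin.image i).bddAbove
      refine ⟨m + 1, fun y hy => ⟨i y, ?_, hi y hy⟩⟩
      exact Nat.lt_succ_of_le (hm ⟨y, hy, rfl⟩)
    obtain ⟨m, hm⟩ := h3
    exact hgb m (bad_mono G l t hbad _ hm)
  · intro a ha b hb hab
    have h3 := hn a (hsub ha) b (hsub hb) hab
    have h4 := congrArg (fun k => k.unpair.1) h3
    simpa using h4

theorem main_complex (G : SimpleGraph V) (hG : Good G) (l : Cardinal.{u})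
    (hl : l ≤ 𝔠 ∨ ∀ W : Set V, #↥W ≤ l → ¬ Good (G.induce W)) (c : G.edgeSet → ℕ) :
    ∃ (n : ℕ) (T : Set (Set V)), ∅ ∈ T ∧ (∀ t ∈ T, ∀ t' ⊆ t, t' ∈ T) ∧
      (∀ t ∈ T, t.Finite ∧ ∀ x ∈ t, ∀ y ∈ t, x ≠ y → ∃ h : G.Adj x y, c ⟨s(x, y), h⟩ = n) ∧
      (∀ t ∈ T, l < #{x : V // x ∉ t ∧ insert x t ∈ T}) ∧
      ∀ d : G.edgeSet → ℕ, ∃ (S : Set V) (hS : G.IsClique S), S.Infinite ∧
        (∀ t ⊆ S, t.Finite → t ∈ T) ∧
        ∃ k : ℕ, ∀ (x : V) (hx : x ∈ S) (y : V) (hy : y ∈ S) (hxy : x ≠ y),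
          d ⟨s(x, y), hS hx hy hxy⟩ = k := by
  obtain ⟨n, hn⟩ := exists_good_color G hG c
  have hl' : l ≤ 𝔠 ∨ ∀ W : Set V, #↥W ≤ l → ¬ Good ((colGraph G c n).induce W) := by
    rcases hl with hl | hl
    · exact Or.inl hl
    · right
      intro W hW hgood
      refine hl W hW ?_
      refine good_mono (G.induce W) ((colGraph G c n).induce W) ?_ ?_ hgood
      · intro x y hxy
        exact colGraph_le G c n hxy
      · intro S hS
        have h1 : G.IsClique ((fun x : ↥W => (x : V)) '' S) := by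
          rintro _ ⟨a, ha, rfl⟩ _ ⟨b, hb, rfl⟩ hab
          exact hS ha hb (fun h => hab (congrArg _ h))
        exact Set.countable_of_injective_of_countable_image (Subtype.val_injective.injOn)
          (hG.1 _ h1)
  have hex := exists_clique (colGraph G c n) hn l hl'
  refine ⟨n, {t | t.Finite ∧ (colGraph G c n).IsClique t ∧ ¬ Bad (colGraph G c n) l t}, ?_, ?_,
    ?_, ?_, ?_⟩
  · obtain ⟨S, hS, -, hSb, -⟩ := hex (fun _ => 0)
    exact ⟨Set.finite_empty, by intro x hx; exact absurd hx (Set.notMem_empty x),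
      hSb ∅ (Set.empty_subset _) Set.finite_empty⟩
  · rintro t ⟨h1, h2, h3⟩ t' ht'
    exact ⟨h1.subset ht', fun x hx y hy hxy => h2 (ht' hx) (ht' hy) hxy,
      fun h => h3 (bad_mono _ l t' h t ht')⟩
  · rintro t ⟨h1, h2, -⟩
    exact ⟨h1, fun x hx y hy hxy => h2 hx hy hxy⟩
  · rintro t ⟨h1, h2, h3⟩
    by_contra hcon
    push Not at hcon
    apply h3
    refine Bad.mk t {x : V | x ∉ t ∧ insert x t ∈ {t : Set V | t.Finite ∧
      (colGraph G c n).IsClique t ∧ ¬ Bad (colGraph G c n) l t}} hcon ?_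
    intro x hxA hxt hadj
    by_contra hnb
    refine hxA ⟨hxt, h1.insert x, ?_, hnb⟩
    rintro a ha b hb hab
    rcases ha with rfl | ha
    · rcases hb with rfl | hb
      · exact absurd rfl hab
      · exact (hadj b hb).symm
    · rcases hb with rfl | hb
      · exact hadj a ha
      · exact h2 ha hb hab
  · intro d
    obtain ⟨S, hS, hinf, hSb, k, hk⟩ := hex (fun e => d ⟨e.1,
      SimpleGraph.edgeSet_mono (colGraph_le G c n) e.2⟩)
    refine ⟨S, fun x hx y hy hxy => colGraph_le G c n (hS hx hy hxy), hinf, ?_, k, ?_⟩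
    · intro t ht hfin
      exact ⟨hfin, fun x hx y hy hxy => hS (ht hx) (ht hy) hxy, hSb t ht hfin⟩
    · intro x hx y hy hxy
      exact hk x hx y hy hxy

end Pool.Agent.Lib.MP_e45b43_lc.Tree
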