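import Mathlib

/-!
# Labelled linear orders: first separators and first tests
-/

set_option autoImplicit false

universe v w

namespace Pool.Agent.Lib.MP_e45b43_lc

/-- An additive labelling of the ordered pairs of a linear order by natural numbers: the label of
`(a, b)` determines whether `a < b`, `a = b` or `b < a`, and if `b` lies strictly between `a` and `c`
then the label of `(a, c)` is determined by the labels of `(a, b)` and `(b, c)`. -/
structure IsLab {L : Type v} [LinearOrder L] (r : L → L → ℕ) : Prop where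
  sgn : ∀ a b c d, r a b = r c d → ((a < b ↔ c < d) ∧ (b < a ↔ d < c))
  add : ∀ a b c a' b' c', (a < b ∧ b < c ∨ c < b ∧ b < a) → r a b = r a' b' → r b c = r b' c' →
    r a c = r a' c'

section

variable {L : Type v} [LinearOrder L]

theorem IsLab.eq {r : L → L → ℕ} (hr : IsLab r) {a b c d : L} (h : r a b = r c d) :
    a = b ↔ c = d := by
  have h1 := hr.sgn a b c d h
  constructor
  · intro hab
    subst hab
    by_contra hcd
    rcases lt_or_gt_of_ne hcd with h2 | h2
    · exact lt_irrefl _ (h1.1.2 h2)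
    · exact lt_irrefl _ (h1.2.2 h2)
  · intro hab
    subst hab
    by_contra hcd
    rcases lt_or_gt_of_ne hcd with h2 | h2
    · exact lt_irrefl _ (h1.1.1 h2)
    · exact lt_irrefl _ (h1.2.1 h2)

/-- the points that separate `a` and `b` -/
def sep (a b : L) : Set L := {m | (a ≤ m ∧ m < b) ∨ (b ≤ m ∧ m < a)}

/-- the points whose labels distinguish `a` and `b` -/
def tst (r : L → L → ℕ) (a b : L) : Set L := {m | r m a ≠ r m b}

/-- index of the first separator -/
noncomputable def fs (idx : L → Ordinal.{w}) (a b : L) : Ordinal.{w} := sInf (idx '' sep a b)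

/-- index of the first test -/
noncomputable def ft (idx : L → Ordinal.{w}) (r : L → L → ℕ) (a b : L) : Ordinal.{w} :=
  sInf (idx '' tst r a b)

theorem sep_comm (a b : L) : sep a b = sep b a := by
  ext m
  exact or_comm

theorem fs_comm (idx : L → Ordinal.{w}) (a b : L) : fs idx a b = fs idx b a := by
  unfold fs
  rw [sep_comm]

theorem ft_comm (idx : L → Ordinal.{w}) (r : L → L → ℕ) (a b : L) : ft idx r a b = ft idx r b a := by
  unfold ft tst
  congr 2
  ext m
  exact ne_comm

theorem fs_spec (idx : L → Ordinal.{w}) {a b : L} (h : a ≠ b) :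
    ∃ m ∈ sep a b, idx m = fs idx a b := by
  have hne : (sep a b).Nonempty := by
    rcases lt_or_gt_of_ne h with h1 | h1
    · exact ⟨a, Or.inl ⟨le_rfl, h1⟩⟩
    · exact ⟨b, Or.inr ⟨le_rfl, h1⟩⟩
  exact csInf_mem (hne.image idx)

theorem fs_le {idx : L → Ordinal.{w}} {a b m : L} (h : m ∈ sep a b) : fs idx a b ≤ idx m :=
  csInf_le' ⟨m, h, rfl⟩

theorem ft_le {idx : L → Ordinal.{w}} {r : L → L → ℕ} {a b m : L} (h : m ∈ tst r a b) :
    ft idx r a b ≤ idx m :=
  csInf_le' ⟨m, h, rfl⟩

theorem sep_sub_tst {r : L → L → ℕ} (hr : IsLab r) (a b : L) : sep a b ⊆ tst r a b := by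
  rintro m (⟨h1, h2⟩ | ⟨h1, h2⟩) h
  · exact absurd ((hr.sgn m a m b h).1.2 h2) (not_lt.2 h1)
  · exact absurd ((hr.sgn m a m b h).1.1 h2) (not_lt.2 h1)

theorem ft_le_fs {idx : L → Ordinal.{w}} {r : L → L → ℕ} (hr : IsLab r) {a b : L} (h : a ≠ b) :
    ft idx r a b ≤ fs idx a b := by
  obtain ⟨m, hm, he⟩ := fs_spec idx h
  rw [← he]
  exact ft_le (sep_sub_tst hr a b hm)

theorem lt_ft {idx : L → Ordinal.{w}} {r : L → L → ℕ} (hr : IsLab r) {a b : L} (h : a ≠ b)
    {o : Ordinal.{w}} (ho : ∀ m ∈ tst r a b, o < idx m) : o < ft idx r a b := by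
  have hne : (tst r a b).Nonempty := by
    obtain ⟨m, hm, -⟩ := fs_spec idx h
    exact ⟨m, sep_sub_tst hr a b hm⟩
  obtain ⟨m, hm, he⟩ := csInf_mem (hne.image idx)
  have : ft idx r a b = idx m := he.symm
  rw [this]
  exact ho m hm

/-- If `a` and `b` are separated before `b` and `c` are distinguished, the label of `(a, c)` is the
label of `(a, b)`. -/
theorem label_eq {idx : L → Ordinal.{w}} {r : L → L → ℕ} (hr : IsLab r) {a b c : L} (hab : a ≠ b)
    (h : fs idx a b < ft idx r b c) : r a c = r a b := by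
  obtain ⟨m, hm, he⟩ := fs_spec idx hab
  have hmt : r m b = r m c := by
    by_contra hcon
    exact absurd (ft_le (idx := idx) (show m ∈ tst r b c from hcon)) (not_le.2 (he ▸ h))
  rcases hm with ⟨h1, h2⟩ | ⟨h1, h2⟩
  · rcases h1.eq_or_lt with h3 | h3
    · subst h3
      exact hmt.symm
    · exact (hr.add a m b a m c (Or.inl ⟨h3, h2⟩) rfl hmt).symm
  · rcases h1.eq_or_lt with h3 | h3
    · subst h3
      have : b = c := (hr.eq hmt).1 rfl
      rw [this]
    · exact (hr.add a m b a m c (Or.inr ⟨h3, h2⟩) rfl hmt).symm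

/-- If `a` and `b` are separated before `b` and `c` are separated, `c` lies on the same side of `a`
as `b`. -/
theorem side_eq {idx : L → Ordinal.{w}} {a b c : L} (hab : a ≠ b)
    (h : fs idx a b < fs idx b c) : (a < c ↔ a < b) ∧ (c < a ↔ b < a) := by
  obtain ⟨m, hm, he⟩ := fs_spec idx hab
  have hms : m ∉ sep b c := fun hcon => absurd (fs_le (idx := idx) hcon) (not_le.2 (he ▸ h))
  rcases hm with ⟨h1, h2⟩ | ⟨h1, h2⟩
  · have h3 : m < c := by
      by_contra h3
      exact hms (Or.inr ⟨not_lt.1 h3, h2⟩)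
    have h4 : a < c := lt_of_le_of_lt h1 h3
    have h5 : a < b := lt_of_le_of_lt h1 h2
    exact ⟨⟨fun _ => h5, fun _ => h4⟩, ⟨fun h6 => absurd h6 h4.not_gt, fun h6 => absurd h6 h5.not_gt⟩⟩
  · have h3 : c ≤ m := by
      by_contra h3
      exact hms (Or.inl ⟨h1, not_le.1 h3⟩)
    have h4 : c < a := lt_of_le_of_lt h3 h2
    have h5 : b < a := lt_of_le_of_lt h1 h2
    exact ⟨⟨fun h6 => absurd h6 h4.not_gt, fun h6 => absurd h6 h5.not_gt⟩, ⟨fun _ => h5, fun _ => h4⟩⟩

/-- In a sequence with constant labels the first separator of the point `1` and a late point comes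
before all tests that distinguish two late points. -/
theorem late {idx : L → Ordinal.{w}} (hidx : Function.Injective idx) {r : L → L → ℕ} (hr : IsLab r)
    (x : ℕ → L) (e e' : ℕ) (hx : ∀ i k, i < k → r (x i) (x k) = e)
    (hx' : ∀ i k, i < k → r (x k) (x i) = e') (h01 : x 0 ≠ x 1) :
    ∃ N, ∀ j k, N ≤ j → N ≤ k → j ≠ k → fs idx (x 1) (x k) < ft idx r (x j) (x k) := by
  have hne : ∀ i k, i < k → x i ≠ x k := by
    intro i k hik heq
    exact h01 ((hr.eq ((hx i k hik).trans (hx 0 1 Nat.zero_lt_one).symm)).1 heq)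
  rcases lt_or_gt_of_ne h01 with h | h
  · -- increasing
    have hmono : ∀ i k, i < k → x i < x k := fun i k hik =>
      (hr.sgn _ _ _ _ ((hx i k hik).trans (hx 0 1 Nat.zero_lt_one).symm)).1.2 h
    let S : ℕ → Set L := fun j => {m | ∃ k > j, x j ≤ m ∧ m < x k}
    have hSne : (S 1).Nonempty := ⟨x 1, 2, by norm_num, le_rfl, hmono 1 2 (by norm_num)⟩
    obtain ⟨m1, ⟨k0, hk0, h1, h2⟩, hm1⟩ := csInf_mem (hSne.image idx)
    refine ⟨k0 + 1, fun j k hj hk hjk => ?_⟩
    have hsep : m1 ∈ sep (x 1) (x k) := Or.inl ⟨h1, h2.trans (hmono k0 k (by omega))⟩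
    refine lt_of_le_of_lt (fs_le hsep) (lt_ft hr ?_ ?_)
    · rcases lt_or_gt_of_ne hjk with h3 | h3
      · exact hne _ _ h3
      · exact (hne _ _ h3).symm
    intro m hm
    by_contra hcon
    rw [not_lt] at hcon
    apply hm
    -- `m` is not in `S k0`
    have hnot : ∀ l > k0, ¬ (x k0 ≤ m ∧ m < x l) := by
      rintro l hl ⟨h3, h4⟩
      have hmS : m ∈ S 1 := ⟨l, by omega, (hmono 1 k0 hk0).le.trans h3, h4⟩
      have h5 : idx m1 ≤ idx m := by
        rw [hm1]
        exact csInf_le' ⟨m, hmS, rfl⟩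
      have h6 : m = m1 := hidx (le_antisymm hcon h5)
      rw [h6] at h3
      exact absurd h2 (not_lt.2 h3)
    by_cases hmk : m < x k0
    · have h7 := hmono k0 j (by omega)
      exact hr.add m (x k0) (x j) m (x k0) (x k) (Or.inl ⟨hmk, h7⟩) rfl
        ((hx k0 j (by omega)).trans (hx k0 k (by omega)).symm)
    · have h7 : ∀ l > k0, x l < m := by
        intro l hl
        have h8 : x (l + 1) ≤ m := by
          by_contra h8
          exact hnot (l + 1) (by omega) ⟨not_lt.1 hmk, not_le.1 h8⟩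
        exact (hmono l (l + 1) (Nat.lt_succ_self l)).trans_le h8
      obtain ⟨p, hpj, hpk⟩ : ∃ p, j < p ∧ k < p := ⟨max j k + 1, by omega, by omega⟩
      exact hr.add m (x p) (x j) m (x p) (x k) (Or.inr ⟨hmono j p hpj, h7 p (by omega)⟩) rfl
        ((hx' j p hpj).trans (hx' k p hpk).symm)
  · -- decreasing
    have hmono : ∀ i k, i < k → x k < x i := fun i k hik =>
      (hr.sgn _ _ _ _ ((hx i k hik).trans (hx 0 1 Nat.zero_lt_one).symm)).2.2 h
    let S : ℕ → Set L := fun j => {m | ∃ k > j, x k ≤ m ∧ m < x j}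
    have hSne : (S 1).Nonempty := ⟨x 2, 2, by norm_num, le_rfl, hmono 1 2 (by norm_num)⟩
    obtain ⟨m1, ⟨k0, hk0, h1, h2⟩, hm1⟩ := csInf_mem (hSne.image idx)
    refine ⟨k0 + 1, fun j k hj hk hjk => ?_⟩
    have hsep : m1 ∈ sep (x 1) (x k) := Or.inr ⟨(hmono k0 k (by omega)).le.trans h1, h2⟩
    refine lt_of_le_of_lt (fs_le hsep) (lt_ft hr ?_ ?_)
    · rcases lt_or_gt_of_ne hjk with h3 | h3
      · exact hne _ _ h3
      · exact (hne _ _ h3).symm
    intro m hm
    by_contra hcon
    rw [not_lt] at hcon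
    apply hm
    have hnot : ∀ l > k0, ¬ (x l ≤ m ∧ m < x k0) := by
      rintro l hl ⟨h3, h4⟩
      have hmS : m ∈ S 1 := ⟨l, by omega, h3, h4.trans (hmono 1 k0 hk0)⟩
      have h5 : idx m1 ≤ idx m := by
        rw [hm1]
        exact csInf_le' ⟨m, hmS, rfl⟩
      have h6 : m = m1 := hidx (le_antisymm hcon h5)
      rw [h6] at h4
      exact absurd h1 (not_le.2 h4)
    by_cases hmk : x k0 ≤ m
    · rcases hmk.eq_or_lt with h7 | h7
      · rw [← h7]
        exact (hx k0 j (by omega)).trans (hx k0 k (by omega)).symm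
      · exact hr.add m (x k0) (x j) m (x k0) (x k) (Or.inr ⟨hmono k0 j (by omega), h7⟩) rfl
          ((hx k0 j (by omega)).trans (hx k0 k (by omega)).symm)
    · have h7 : ∀ l > k0, m < x l := by
        intro l hl
        by_contra h8
        exact hnot l hl ⟨not_lt.1 h8, not_le.1 hmk⟩
      obtain ⟨p, hpj, hpk⟩ : ∃ p, j < p ∧ k < p := ⟨max j k + 1, by omega, by omega⟩
      exact hr.add m (x p) (x j) m (x p) (x k) (Or.inl ⟨h7 p (by omega), hmono j p hpj⟩) rfl
        ((hx' j p hpj).trans (hx' k p hpk).symm)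

end

end Pool.Agent.Lib.MP_e45b43_lc
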