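import Mathlib
import Pool.Agent.Lib.MP_e45b43_lc.Basic

/-!
# No good graph is a countable union of comparability graphs
-/

universe u

namespace Pool.Agent.Results.MP_e45b43_lc.ComparabilityUnion

open Pool.Agent.Lib.MP_e45b43_lc

/-- Greedy chains below related elements: the first difference belongs to the upper one. -/
theorem firstDiff_of_rel {V : Type u} [LinearOrder V] [WellFoundedLT V] (R : V → V → Prop)
    (hirr : ∀ x, ¬ R x x) (htr : ∀ x y z, R x y → R y z → R x z) (K : V → Set V)
    (hK : ∀ x z, z ∈ K x ↔ R z x ∧ ∀ z' ∈ K x, z' < z → (R z' z ∨ R z z'))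
    {x y : V} (h : R y x) : ∃ d, FirstDiff (K x) (K y) d := by
  have hne : K x ≠ K y := by
    intro heq
    have hy : y ∈ K x := by
      rw [hK]
      refine ⟨h, fun z' hz' _ => Or.inl ?_⟩
      rw [heq] at hz'
      exact ((hK y z').1 hz').1
    rw [heq] at hy
    exact hirr y ((hK y y).1 hy).1
  rcases exists_firstDiff (K x) (K y) hne with h1 | ⟨d, hd⟩
  · exact h1
  · exfalso
    apply hd.2.1
    rw [hK]
    have hdy := (hK y d).1 hd.1
    refine ⟨htr _ _ _ hdy.1 h, fun z' hz' hlt => ?_⟩
    exact hdy.2 z' ((hd.2.2 z' hlt).2 hz') hlt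

/-- **Theorem.** If the edges of `G` are exactly the pairs comparable in one of countably many
strict partial orders, then `G` is not good. -/
theorem result {V : Type u} (G : SimpleGraph V) (R : ℕ → V → V → Prop)
    (hR : ∀ n, IsStrictOrder V (R n))
    (hG : ∀ x y, G.Adj x y ↔ ∃ n, R n x y ∨ R n y x) : ¬ Good G := by
  classical
  intro hgood
  obtain ⟨_, _⟩ := exists_wellFoundedLT V
  have hirr : ∀ n x, ¬ R n x x := fun n x => (hR n).toIrrefl.irrefl x
  have htr : ∀ n x y z, R n x y → R n y z → R n x z :=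
    fun n x y z h1 h2 => (hR n).toIsTrans.trans x y z h1 h2
  have hasym : ∀ n x y, R n x y → ¬ R n y x := fun n x y h1 h2 => hirr n x (htr n _ _ _ h1 h2)
  -- greedy chains
  have hex : ∀ n x, ∃ K : Set V, ∀ z, z ∈ K ↔ R n z x ∧
      ∀ z' ∈ K, z' < z → (R n z' z ∨ R n z z') := fun n x =>
    exists_greedy (fun z' z => R n z' z ∨ R n z z') {z | R n z x}
  choose K hK using hex
  have hex' : ∀ n x, ∃ K : Set V, ∀ z, z ∈ K ↔ R n x z ∧
      ∀ z' ∈ K, z' < z → (R n z z' ∨ R n z' z) := fun n x =>
    exists_greedy (fun z' z => R n z z' ∨ R n z' z) {z | R n x z}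
  choose K' hK' using hex'
  have hclique : ∀ n x, (K n x).Countable := by
    intro n x
    apply hgood.1
    intro a ha b hb hab
    rw [hG]
    rcases lt_or_gt_of_ne hab with hlt | hgt
    · exact ⟨n, ((hK n x b).1 hb).2 a ha hlt⟩
    · exact ⟨n, (((hK n x a).1 ha).2 b hb hgt).symm⟩
  have hclique' : ∀ n x, (K' n x).Countable := by
    intro n x
    apply hgood.1
    intro a ha b hb hab
    rw [hG]
    rcases lt_or_gt_of_ne hab with hlt | hgt
    · exact ⟨n, (((hK' n x b).1 hb).2 a ha hlt).symm⟩
    · exact ⟨n, ((hK' n x a).1 ha).2 b hb hgt⟩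
  choose e he using fun n x => exists_numbering (K n x) (hclique n x)
  choose e' he' using fun n x => exists_numbering (K' n x) (hclique' n x)
  -- the colouring
  let N : V → V → ℕ := fun x y => sInf {n | R n x y ∨ R n y x}
  have hN : ∀ x y, N x y = N y x := by
    intro x y
    have : {n | R n x y ∨ R n y x} = {n | R n y x ∨ R n x y} := by
      ext n; exact or_comm
    simp only [N, this]
  let g : ℕ → V → V → ℕ := fun n y x =>
    Nat.pair (e n x (fd (K n x) (K n y) x)) (e' n y (fd (K' n y) (K' n x) y))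
  let f : V → V → ℕ := fun x y => Nat.pair (N x y)
    (if R (N x y) x y then g (N x y) x y else if R (N x y) y x then g (N x y) y x else 0)
  have hf : ∀ x y, f x y = f y x := by
    intro x y
    simp only [f]
    rw [hN y x]
    by_cases h1 : R (N x y) x y
    · have h2 := hasym _ _ _ h1
      simp [h1, h2]
    · by_cases h2 : R (N x y) y x
      · simp [h1, h2]
      · simp [h1, h2]
  refine not_good_of G f hf ?_ hgood
  intro x _ hadj m hm
  -- all pairs are comparable in the same order
  obtain ⟨n, hn⟩ : ∃ n, n = (Nat.unpair m).1 := ⟨_, rfl⟩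
  have hNn : ∀ i j, i ≠ j → N (x i) (x j) = n := by
    intro i j hij
    have := hm i j hij
    rw [hn, ← this]
    simp [f]
  have hcomp : ∀ i j, i ≠ j → R n (x i) (x j) ∨ R n (x j) (x i) := by
    intro i j hij
    have hne : {n | R n (x i) (x j) ∨ R n (x j) (x i)}.Nonempty := (hG _ _).1 (hadj i j hij)
    have := Nat.sInf_mem hne
    rw [← hNn i j hij]
    exact this
  have hgm : ∀ i j, i ≠ j → R n (x i) (x j) → g n (x i) (x j) = (Nat.unpair m).2 := by
    intro i j hij hR'
    have := hm i j hij
    rw [← this]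
    simp only [f, Nat.unpair_pair, hNn i j hij, if_pos hR']
  have : IsTrans V (R n) := (hR n).toIsTrans
  obtain ⟨φ, hφ | hφ⟩ := exists_increasing_or_nonincreasing_subseq (R n) x
  · refine core (K n) (e n) (he n) (fun i => x (φ i)) ((Nat.unpair (Nat.unpair m).2).1) ?_ ?_
    · intro i j hij
      exact firstDiff_of_rel (R n) (hirr n) (htr n) (K n) (hK n) (hφ i j hij)
    · intro i j hij
      have hne : φ i ≠ φ j := fun h => (ne_of_lt hij) (φ.injective h)
      have := hgm (φ i) (φ j) hne (hφ i j hij)
      rw [← this]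
      simp [g]
  · have hφ' : ∀ i j, i < j → R n (x (φ j)) (x (φ i)) := by
      intro i j hij
      have hne : φ i ≠ φ j := fun h => (ne_of_lt hij) (φ.injective h)
      rcases hcomp (φ i) (φ j) hne with h1 | h1
      · exact absurd h1 (hφ i j hij)
      · exact h1
    refine core (K' n) (e' n) (he' n) (fun i => x (φ i)) ((Nat.unpair (Nat.unpair m).2).2) ?_ ?_
    · intro i j hij
      exact firstDiff_of_rel (fun a b => R n b a) (hirr n)
        (fun a b c h1 h2 => htr n _ _ _ h2 h1) (K' n) (hK' n) (hφ' i j hij)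
    · intro i j hij
      have hne : φ j ≠ φ i := fun h => (ne_of_lt hij) (φ.injective h).symm
      have := hgm (φ j) (φ i) hne (hφ' i j hij)
      rw [← this]
      simp [g]

end Pool.Agent.Results.MP_e45b43_lc.ComparabilityUnion
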