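import Mathlib

/-!
# Products of interval orders on well-orders: no uncountable chain implies a countable union of antichains
-/

set_option autoImplicit false

namespace Pool.Agent.Lib.MP_e45b43_lc

section special

variable {X : Type*} {K : Type*} {O : Type*} [LinearOrder O]

/-- `S` is a union of countably many antichains for the relation `∀ k, v x k < u y k` -/
def Spec (u v : X → K → O) (S : Set X) : Prop :=
  ∃ col : X → ℕ, ∀ x ∈ S, ∀ y ∈ S, (∀ k, v x k < u y k) → col x ≠ col y

theorem Spec.mono {u v : X → K → O} {S T : Set X} (h : Spec u v T) (hST : S ⊆ T) :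
    Spec u v S := by
  obtain ⟨col, hcol⟩ := h
  exact ⟨col, fun x hx y hy => hcol x (hST hx) y (hST hy)⟩

theorem Spec.of_antichain {u v : X → K → O} {S : Set X}
    (h : ∀ x ∈ S, ∀ y ∈ S, ¬ ∀ k, v x k < u y k) : Spec u v S :=
  ⟨fun _ => 0, fun x hx y hy hxy => absurd hxy (h x hx y hy)⟩

theorem Spec.iUnion {u v : X → K → O} {ι : Type*} [Countable ι] {S : ι → Set X}
    (h : ∀ i, Spec u v (S i)) : Spec u v (⋃ i, S i) := by
  classical
  obtain ⟨e, he⟩ := exists_injective_nat ι
  choose col hcol using h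
  refine ⟨fun x => if hx : ∃ i, x ∈ S i then Nat.pair (e hx.choose) (col hx.choose x) else 0, ?_⟩
  intro x hx y hy hxy heq
  rw [Set.mem_iUnion] at hx hy
  simp only [dif_pos hx, dif_pos hy, Nat.pair_eq_pair] at heq
  have h1 : hx.choose = hy.choose := he heq.1
  have h2 := hx.choose_spec
  have h3 := hy.choose_spec
  rw [h1] at h2 heq
  exact hcol _ x h2 y h3 hxy heq.2

theorem Spec.union {u v : X → K → O} {S T : Set X} (hS : Spec u v S) (hT : Spec u v T) :
    Spec u v (S ∪ T) := by
  rw [Set.union_eq_iUnion]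
  exact Spec.iUnion fun b => by cases b <;> assumption

/-- If every chain is countable then there is a countable union of antichains. -/
theorem special [WellFoundedLT O] [Finite K] [Nonempty K] {u v : X → K → O} {S : Set X}
    (huv : ∀ x ∈ S, ∀ k, u x k ≤ v x k)
    (hch : ∀ C ⊆ S, (∀ x ∈ C, ∀ y ∈ C, x ≠ y → (∀ k, v x k < u y k) ∨ ∀ k, v y k < u x k) →
      C.Countable) : Spec u v S := by
  classical
  by_contra hnot
  let B : (K → WithTop O) → Set X := fun P => {x | x ∈ S ∧ ∀ k, ((v x k : O) : WithTop O) < P k}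
  obtain ⟨P, hP, hmin⟩ := WellFounded.has_min (wellFounded_lt (α := K → WithTop O))
    {P | ¬ Spec u v (B P)} ⟨⊤, fun h => hnot (h.mono fun x hx => ⟨hx, fun k => WithTop.coe_lt_top _⟩)⟩
  have hBS : ∀ P, B P ⊆ S := fun P x hx => hx.1
  -- smaller boxes
  have hsmall : ∀ (k : K) (q : O), (q : WithTop O) < P k → Spec u v {x | x ∈ B P ∧ v x k < q} := by
    intro k q hq
    have h1 : Function.update P k q < P := by
      rw [Pi.lt_def]
      refine ⟨fun k' => ?_, k, ?_⟩
      · by_cases hk : k' = k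
        · subst hk
          rw [Function.update_self]
          exact hq.le
        · rw [Function.update_of_ne hk]
      · rw [Function.update_self]
        exact hq
    have h2 : Spec u v (B (Function.update P k q)) := by
      by_contra h3
      exact hmin _ h3 h1
    refine h2.mono ?_
    rintro x ⟨hx, hxq⟩
    refine ⟨hx.1, fun k' => ?_⟩
    by_cases hk : k' = k
    · subst hk
      rw [Function.update_self]
      exact WithTop.coe_lt_coe.2 hxq
    · rw [Function.update_of_ne hk]
      exact hx.2 k'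
  -- a maximal chain
  let r : B P → B P → Prop := fun x y => ∀ k, v x.1 k < u y.1 k
  have hM : IsMaxChain r (maxChain r) := maxChain_spec
  set M : Set (B P) := maxChain r with hMdef
  have hMc : (Subtype.val '' M : Set X).Countable := by
    refine hch _ ?_ ?_
    · rintro _ ⟨x, -, rfl⟩
      exact hBS _ x.2
    · rintro _ ⟨x, hx, rfl⟩ _ ⟨y, hy, rfl⟩ hxy
      exact hM.1 hx hy fun h => hxy (congrArg _ h)
  have hMc' : M.Countable := by
    rw [Set.countable_iff_exists_injOn] at hMc ⊢
    obtain ⟨e, he⟩ := hMc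
    refine ⟨fun x => e x.1, fun x hx y hy hxy => Subtype.ext ?_⟩
    exact he ⟨x, hx, rfl⟩ ⟨y, hy, rfl⟩ hxy
  have : Countable M := hMc'.to_subtype
  -- an element above the chain
  obtain ⟨x, hx, hxM⟩ : ∃ x ∈ B P, ∀ c ∈ M, ∀ k, v c.1 k < u x k := by
    by_contra hcon
    push Not at hcon
    apply hP
    have hcov : B P ⊆ ⋃ p : M × K, {x | x ∈ B P ∧ u x p.2 ≤ v p.1.1.1 p.2} := by
      intro x hx
      obtain ⟨c, hc, k, hk⟩ := hcon x hx
      exact Set.mem_iUnion.2 ⟨(⟨c, hc⟩, k), hx, hk⟩
    refine Spec.mono (Spec.iUnion fun p => ?_) hcov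
    have h1 := hsmall p.2 (v p.1.1.1 p.2) (p.1.1.2.2 p.2)
    have h2 : Spec u v {x | x ∈ B P ∧ u x p.2 ≤ v p.1.1.1 p.2 ∧ v p.1.1.1 p.2 ≤ v x p.2} := by
      apply Spec.of_antichain
      rintro x ⟨hx, hx1, hx2⟩ y ⟨hy, hy1, hy2⟩ hxy
      exact absurd (hxy p.2) (not_lt.2 (hy1.trans hx2))
    refine (h1.union h2).mono ?_
    rintro x ⟨hx, hx1⟩
    rcases lt_or_ge (v x p.2) (v p.1.1.1 p.2) with h | h
    · exact Or.inl ⟨hx, h⟩
    · exact Or.inr ⟨hx, hx1, h⟩
  have hins : IsChain r (insert ⟨x, hx⟩ M) := by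
    apply hM.1.insert
    intro c hc _
    exact Or.inr (hxM c hc)
  have heq := hM.2 hins (Set.subset_insert _ _)
  have hxin : (⟨x, hx⟩ : B P) ∈ M := by
    rw [heq]
    exact Set.mem_insert _ _
  obtain ⟨k⟩ := ‹Nonempty K›
  exact absurd (hxM _ hxin k) (not_lt.2 (huv x hx.1 k))

end special

end Pool.Agent.Lib.MP_e45b43_lc
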