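import Mathlib
import Pool.Agent.Lib.MP_e45b43_lc.Basic
import Pool.Agent.Lib.MP_e45b43_lc.Tree

/-!
Graphs without long half graphs.

Let `G` be a graph without half graph of length `k`. Over a set `N` which realises all finite
patterns, the neighbourhood of a vertex `x` is the majority of `2k+1` neighbourhoods of vertices of
`N` (`exists_code`). Iterating this along a closure filtration gives a colouring of the pairs of
vertices by natural numbers such that a monochromatic sequence of adjacent vertices can be unwound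
to a clique of size continuum (`exists_colouring`).
-/

universe u

namespace Pool.Agent.Lib.MP_e45b43_lc.Stable

open Cardinal Set Pool.Agent.Lib.MP_e45b43_lc Pool.Agent.Lib.MP_e45b43_lc.Tree

variable {V : Type u}

/-- `G` contains a half graph of length `k` -/
def HasHalf (G : SimpleGraph V) (k : ℕ) : Prop :=
  ∃ a b : Fin k → V, ∀ i j, G.Adj (a i) (b j) ↔ i < j

theorem sym_of_noHalf (G : SimpleGraph V) (k : ℕ) (h : ¬ HasHalf G k) (a b : ℕ → V) (σ τ : Prop)
    (h1 : ∀ i j, i < j → (G.Adj (a i) (b j) ↔ σ)) (h2 : ∀ i j, i < j → (G.Adj (b i) (a j) ↔ τ)) :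
    σ ↔ τ := by
  by_contra hcon
  by_cases hσ : σ
  · have hτ : ¬ τ := fun h => hcon ⟨fun _ => h, fun _ => hσ⟩
    apply h
    refine ⟨fun i => a (2 * i + 1), fun j => b (2 * j), ?_⟩
    intro i j
    constructor
    · intro hadj
      by_contra hij
      rw [not_lt, Fin.le_iff_val_le_val] at hij
      exact hτ ((h2 (2 * j) (2 * i + 1) (by omega)).1 hadj.symm)
    · intro hij
      rw [Fin.lt_def] at hij
      exact (h1 (2 * i + 1) (2 * j) (by omega)).2 hσ
  · have hτ : τ := by
      by_contra h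
      exact hcon ⟨fun h' => absurd h' hσ, fun h' => absurd h' h⟩
    apply h
    refine ⟨fun i => b (2 * i + 1), fun j => a (2 * j), ?_⟩
    intro i j
    constructor
    · intro hadj
      by_contra hij
      rw [not_lt, Fin.le_iff_val_le_val] at hij
      exact hσ ((h1 (2 * j) (2 * i + 1) (by omega)).1 hadj.symm)
    · intro hij
      rw [Fin.lt_def] at hij
      exact (h2 (2 * i + 1) (2 * j) (by omega)).2 hτ

/-- `N` realises all finite patterns over itself -/
def Rich (G : SimpleGraph V) (N : Set V) : Prop :=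
  ∀ L : List V, (∀ u ∈ L, u ∈ N) → ∀ x : V, ∃ c ∈ N, ∀ u ∈ L, (G.Adj u c ↔ G.Adj u x)

open Classical in
/-- majority definition of the neighbourhood of `x` over `N` -/
theorem exists_code (G : SimpleGraph V) (k : ℕ) (h : ¬ HasHalf G k) (N : Set V) (hN : Rich G N)
    (x : V) : ∃ c : ℕ → V, (∀ a, c a ∈ N) ∧ ∀ u ∈ N,
      (G.Adj u x ↔ k < ((Finset.range (2 * k + 1)).filter (fun a => G.Adj u (c a))).card) := by
  let Wt : Finset V → Bool → V → Prop := fun I s u =>
    u ∈ N ∧ (G.Adj u x ↔ s = true) ∧ ∀ c ∈ I, (G.Adj u c ↔ s = false)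
  have hwit : ∀ I s, ∃ u, (∃ u', Wt I s u') → Wt I s u := by
    intro I s
    by_cases h : ∃ u', Wt I s u'
    · obtain ⟨u, hu⟩ := h
      exact ⟨u, fun _ => hu⟩
    · exact ⟨x, fun h' => absurd h' h⟩
  choose wit hwit using hwit
  have hpick : ∀ K : Finset V, ∃ c ∈ N, ∀ I ⊆ K, ∀ s, Wt I s (wit I s) →
      (G.Adj (wit I s) c ↔ G.Adj (wit I s) x) := by
    intro K
    let L : List V := (((K.powerset ×ˢ (Finset.univ : Finset Bool)).filter
      (fun q => Wt q.1 q.2 (wit q.1 q.2))).toList).map (fun q => wit q.1 q.2)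
    obtain ⟨c, hc, hcL⟩ := hN L (by
      intro u hu
      obtain ⟨q, hq, rfl⟩ := List.mem_map.1 hu
      rw [Finset.mem_toList, Finset.mem_filter] at hq
      exact hq.2.1) x
    refine ⟨c, hc, ?_⟩
    intro I hI s hs
    apply hcL
    refine List.mem_map.2 ⟨(I, s), ?_, rfl⟩
    rw [Finset.mem_toList, Finset.mem_filter, Finset.mem_product, Finset.mem_powerset]
    exact ⟨⟨hI, Finset.mem_univ _⟩, hs⟩
  choose pick hpickN hpick using hpick
  let K : ℕ → Finset V := fun n => Nat.rec ∅ (fun _ K => insert (pick K) K) n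
  have hK1 : ∀ n, K (n + 1) = insert (pick (K n)) (K n) := fun n => rfl
  have hKmono : Monotone K := by
    apply monotone_nat_of_le_succ
    intro n
    rw [hK1]
    exact Finset.subset_insert _ _
  let c : ℕ → V := fun n => pick (K n)
  have hcK : ∀ n, c n ∈ K (n + 1) := fun n => by
    rw [hK1]
    exact Finset.mem_insert_self _ _
  refine ⟨c, fun a => hpickN _, ?_⟩
  intro u hu
  by_contra hcon
  -- the sign
  obtain ⟨s, hs⟩ : ∃ s : Bool, (G.Adj u x ↔ s = true) := by
    by_cases hux : G.Adj u x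
    · exact ⟨true, by simp [hux]⟩
    · exact ⟨false, by simp [hux]⟩
  let J : Finset ℕ := (Finset.range (2 * k + 1)).filter (fun a => (G.Adj u (c a) ↔ s = false))
  have hJ : k + 1 ≤ J.card := by
    have h1 := Finset.card_filter_add_card_filter_not (s := Finset.range (2 * k + 1))
      (fun a => G.Adj u (c a))
    rw [Finset.card_range] at h1
    cases s with
    | true =>
      have h2 : J = (Finset.range (2 * k + 1)).filter (fun a => ¬ G.Adj u (c a)) := by
        apply Finset.filter_congr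
        intro a _
        simp
      rw [h2]
      have h3 : G.Adj u x := hs.2 rfl
      have h4 : ¬ k < ((Finset.range (2 * k + 1)).filter (fun a => G.Adj u (c a))).card :=
        fun h => hcon ⟨fun _ => h, fun _ => h3⟩
      omega
    | false =>
      have h2 : J = (Finset.range (2 * k + 1)).filter (fun a => G.Adj u (c a)) := by
        apply Finset.filter_congr
        intro a _
        simp
      rw [h2]
      have h3 : ¬ G.Adj u x := fun h => by simpa using hs.1 h
      by_contra h4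
      apply hcon
      constructor
      · intro h5
        exact absurd h5 h3
      · intro h5
        omega
  let a : Fin (k + 1) ↪o ℕ := J.orderEmbOfCardLe hJ
  have ha : ∀ m, (G.Adj u (c (a m)) ↔ s = false) := by
    intro m
    have h1 := J.orderEmbOfCardLe_mem hJ m
    exact (Finset.mem_filter.1 h1).2
  let I : Fin (k + 1) → Finset V := fun l =>
    (Finset.univ.filter (fun m => m ≤ l)).image (fun m => c (a m))
  have hIK : ∀ l m : Fin (k + 1), l < m → I l ⊆ K (a m) := by
    intro l m hlm v hv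
    obtain ⟨m', hm', rfl⟩ := Finset.mem_image.1 hv
    rw [Finset.mem_filter] at hm'
    have h1 : a m' < a m := a.strictMono (lt_of_le_of_lt hm'.2 hlm)
    exact hKmono h1 (hcK _)
  have hW : ∀ l, Wt (I l) s (wit (I l) s) := by
    intro l
    apply hwit
    refine ⟨u, hu, hs, ?_⟩
    intro v hv
    obtain ⟨m', hm', rfl⟩ := Finset.mem_image.1 hv
    exact ha m'
  have h1 : ∀ l m : Fin (k + 1), m ≤ l → (G.Adj (wit (I l) s) (c (a m)) ↔ s = false) := by
    intro l m hml
    apply (hW l).2.2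
    exact Finset.mem_image.2 ⟨m, by simp [hml], rfl⟩
  have h2 : ∀ l m : Fin (k + 1), l < m → (G.Adj (wit (I l) s) (c (a m)) ↔ s = true) := by
    intro l m hlm
    rw [← (hW l).2.1]
    exact hpick (K (a m)) (I l) (hIK l m hlm) s (hW l)
  apply h
  cases s with
  | true =>
    refine ⟨fun i => wit (I i.castSucc) true, fun j => c (a j.castSucc), ?_⟩
    intro i j
    constructor
    · intro hadj
      by_contra hij
      rw [not_lt] at hij
      have h3 := (h1 i.castSucc j.castSucc (by simpa using hij)).1 hadj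
      simp at h3
    · intro hij
      exact (h2 i.castSucc j.castSucc (by simpa using hij)).2 rfl
  | false =>
    refine ⟨fun i => wit (I ⟨k - 1 - i, by omega⟩) false, fun j => c (a ⟨k - j, by omega⟩), ?_⟩
    intro i j
    have hi := i.2
    have hj := j.2
    constructor
    · intro hadj
      by_contra hij
      rw [not_lt, Fin.le_iff_val_le_val] at hij
      have h3 := (h2 ⟨k - 1 - i, by omega⟩ ⟨k - j, by omega⟩ (by
        rw [Fin.lt_def]
        simp only
        omega)).1 hadj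
      simp at h3
    · intro hij
      rw [Fin.lt_def] at hij
      exact (h1 ⟨k - 1 - i, by omega⟩ ⟨k - j, by omega⟩ (by
        rw [Fin.le_iff_val_le_val]
        simp only
        omega)).2 rfl

open Classical in
/-- the majority of the `2k+1` vertices in the block `p` of `e` is adjacent to `u` -/
def Mj (G : SimpleGraph V) (k : ℕ) (e : ℕ → V) (u : V) (p : ℕ) : Prop :=
  k < ((Finset.range (2 * k + 1)).filter (fun a => G.Adj u (e (p * (2 * k + 1) + a)))).card

theorem mj_congr (G : SimpleGraph V) (k : ℕ) (e e' : ℕ → V) (u u' : V) (p p' : ℕ)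
    (h : ∀ a < 2 * k + 1, (G.Adj u (e (p * (2 * k + 1) + a)) ↔
      G.Adj u' (e' (p' * (2 * k + 1) + a)))) : Mj G k e u p ↔ Mj G k e' u' p' := by
  classical
  unfold Mj
  have h1 : (Finset.range (2 * k + 1)).filter (fun a => G.Adj u (e (p * (2 * k + 1) + a))) =
      (Finset.range (2 * k + 1)).filter (fun a => G.Adj u' (e' (p' * (2 * k + 1) + a))) := by
    apply Finset.filter_congr
    intro a ha
    exact h a (Finset.mem_range.1 ha)
  rw [h1]

theorem idx_lt (k d p a : ℕ) (hp : p < (2 * k + 1) ^ d) (ha : a < 2 * k + 1) :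
    p * (2 * k + 1) + a < (2 * k + 1) ^ (d + 1) := by
  have h1 : (p + 1) * (2 * k + 1) ≤ (2 * k + 1) ^ d * (2 * k + 1) := Nat.mul_le_mul_right _ hp
  rw [pow_succ]
  calc p * (2 * k + 1) + a < p * (2 * k + 1) + (2 * k + 1) := by omega
    _ = (p + 1) * (2 * k + 1) := by ring
    _ ≤ _ := h1

/-- `e` is a code of depth `d`: at depth `d+1` it can be realised over every small set by a code of
depth `d` -/
def P (G : SimpleGraph V) (k : ℕ) : ℕ → (ℕ → V) → Prop
  | 0, _ => True
  | d + 1, e => ∀ F : Set V, #↥F ≤ 𝔠 → ∃ b, P G k d b ∧ ∀ u ∈ F, ∀ p < (2 * k + 1) ^ d,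
      (G.Adj u (b p) ↔ Mj G k e u p)

theorem P_congr (G : SimpleGraph V) (k d : ℕ) (e e' : ℕ → V)
    (h : ∀ p < (2 * k + 1) ^ d, e p = e' p) (hP : P G k d e) : P G k d e' := by
  cases d with
  | zero => trivial
  | succ d =>
    intro F hF
    obtain ⟨b, hb, hb'⟩ := hP F hF
    refine ⟨b, hb, ?_⟩
    intro u hu p hp
    rw [hb' u hu p hp]
    apply mj_congr
    intro a ha
    rw [h _ (idx_lt k d p a hp ha)]

theorem exists_A (G : SimpleGraph V) (k : ℕ) (v0 : V) : ∃ A : List V → Set V,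
    (∀ L, #↥(A L) ≤ 𝔠) ∧ (∀ N, Closed A N → Rich G N) ∧
    (∀ N, Closed A N → ∀ (d : ℕ) (e b : ℕ → V), (∀ p < (2 * k + 1) ^ (d + 1), e p ∈ N) →
      P G k d b → (∀ u ∈ N, ∀ p < (2 * k + 1) ^ d, (G.Adj u (b p) ↔ Mj G k e u p)) →
      P G k (d + 1) e) := by
  classical
  let pat : List V → V → Set ℕ := fun L x => {n | G.Adj (L.getD n v0) x ∧ n < L.length}
  have hpick : ∀ (L : List V) (T : Set ℕ), ∃ c : V, (∃ x, pat L x = T) → pat L c = T := by
    intro L T
    by_cases h : ∃ x, pat L x = T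
    · obtain ⟨x, hx⟩ := h
      exact ⟨x, fun _ => hx⟩
    · exact ⟨v0, fun h' => absurd h' h⟩
  choose pick hpick using hpick
  have hbad : ∀ (d : ℕ) (L : List V), ∃ F : Set V, #↥F ≤ 𝔠 ∧
      (¬ P G k (d + 1) (fun p => L.getD p v0) → ∀ b, P G k d b →
        ¬ ∀ u ∈ F, ∀ p < (2 * k + 1) ^ d, (G.Adj u (b p) ↔ Mj G k (fun p => L.getD p v0) u p)) := by
    intro d L
    by_cases h : P G k (d + 1) (fun p => L.getD p v0)
    · exact ⟨∅, by simp, fun h' => absurd h h'⟩
    · have h' : ¬ ∀ F : Set V, #↥F ≤ 𝔠 → ∃ b, P G k d b ∧ ∀ u ∈ F, ∀ p < (2 * k + 1) ^ d,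
        (G.Adj u (b p) ↔ Mj G k (fun p => L.getD p v0) u p) := h
      rw [not_forall] at h'
      obtain ⟨F, hF⟩ := h'
      rw [Classical.not_imp] at hF
      refine ⟨F, hF.1, fun _ b hb hall => hF.2 ⟨b, hb, hall⟩⟩
  choose bad hbad1 hbad2 using hbad
  refine ⟨fun L => Set.range (pick L) ∪ ⋃ d, bad d L, ?_, ?_, ?_⟩
  · intro L
    refine (Cardinal.mk_union_le _ _).trans ?_
    have h1 : #↥(Set.range (pick L)) ≤ 𝔠 := by
      have h2 := Cardinal.mk_range_le_lift (f := pick L)
      rw [Cardinal.mk_set_nat, Cardinal.lift_continuum, Cardinal.lift_uzero] at h2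
      exact h2
    have h3 : #↥(⋃ d, bad d L) ≤ 𝔠 := by
      have h4 := Cardinal.mk_iUnion_le_lift (fun d : ℕ => bad d L)
      rw [Cardinal.lift_uzero] at h4
      refine h4.trans ?_
      have h5 : (⨆ n : ℕ, Cardinal.lift.{0} #↥(bad n L)) ≤ 𝔠 := by
        refine ciSup_le' (fun n => ?_)
        rw [Cardinal.lift_uzero]
        exact hbad1 n L
      have h6 : Cardinal.lift.{u} #ℕ ≤ 𝔠 := by
        rw [Cardinal.mk_nat, Cardinal.lift_aleph0]
        exact Cardinal.aleph0_le_continuum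
      exact (mul_le_mul' h6 h5).trans (Cardinal.mul_eq_self Cardinal.aleph0_le_continuum).le
    exact (add_le_add h1 h3).trans (Cardinal.add_eq_self Cardinal.aleph0_le_continuum).le
  · intro N hN L hL x
    have h1 := hpick L (pat L x) ⟨x, rfl⟩
    refine ⟨pick L (pat L x), hN L hL (Or.inl ⟨_, rfl⟩), ?_⟩
    intro u hu
    obtain ⟨n, hn, rfl⟩ := List.mem_iff_getElem.1 hu
    have h2 : n ∈ pat L (pick L (pat L x)) ↔ n ∈ pat L x := by rw [h1]
    have h3 : L.getD n v0 = L[n] := by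
      rw [List.getD_eq_getElem _ _ hn]
    simp only [pat, Set.mem_ofPred_eq, h3, hn, and_true] at h2
    exact h2
  · intro N hN d e b heN hb hcode
    by_contra hcon
    let L : List V := (List.range ((2 * k + 1) ^ (d + 1))).map e
    have hL : ∀ p < (2 * k + 1) ^ (d + 1), L.getD p v0 = e p := by
      intro p hp
      have h1 : p < L.length := by simpa [L] using hp
      rw [List.getD_eq_getElem _ _ h1]
      simp [L]
    have hcon2 : ¬ P G k (d + 1) (fun p => L.getD p v0) := by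
      intro h
      exact hcon (P_congr G k (d + 1) _ _ hL h)
    apply hbad2 d L hcon2 b hb
    intro u hu p hp
    have hLN : ∀ z ∈ L, z ∈ N := by
      intro z hz
      obtain ⟨i, hi, rfl⟩ := List.mem_map.1 hz
      rw [List.mem_range] at hi
      exact heN i hi
    have huN : u ∈ N := hN L hLN (Or.inr (Set.mem_iUnion.2 ⟨d, hu⟩))
    rw [hcode u huN p hp]
    apply mj_congr
    intro a ha
    rw [hL _ (idx_lt k d p a hp ha)]

/-- the index set of size continuum -/
def Om : Type u := ULift.{u} (Set ℕ)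

theorem mk_Om : #Om.{u} = 𝔠 := by
  change #(ULift.{u} (Set ℕ)) = 𝔠
  rw [Cardinal.mk_uLift, Cardinal.mk_set_nat, Cardinal.lift_continuum]

/-- a continuum of codes of depth `d` which are pairwise related as `s 0` and `s 1` are -/
def Concl (G : SimpleGraph V) (k d : ℕ) (s : ℕ → ℕ → V) : Prop :=
  ∃ t : Om.{u} → ℕ → V, (∀ ξ, P G k d (t ξ)) ∧
    ∀ ξ η, ξ ≠ η → ∀ p < (2 * k + 1) ^ d, ∀ q < (2 * k + 1) ^ d,
      (G.Adj (t ξ p) (t η q) ↔ G.Adj (s 0 p) (s 1 q))

/-- a colouring of the pairs of codes in `W` -/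
def Star (G : SimpleGraph V) (k : ℕ) (W : Set V) : Prop :=
  ∃ F : ℕ → (ℕ → V) → (ℕ → V) → ℕ, ∀ (d : ℕ) (s : ℕ → ℕ → V),
    (∀ i, ∀ p < (2 * k + 1) ^ d, s i p ∈ W) → (∀ i, P G k d (s i)) →
    (∃ c, ∀ i j, i < j → F d (s i) (s j) = c) → Concl G k d s

theorem extend (G : SimpleGraph V) (k : ℕ) (hk : ¬ HasHalf G k) (d : ℕ) (s e : ℕ → ℕ → V)
    (h1 : ∀ i j, i < j → ∀ p < (2 * k + 1) ^ d, ∀ q < (2 * k + 1) ^ d,
      (G.Adj (s i p) (s j q) ↔ G.Adj (s 0 p) (s 1 q)))
    (h2 : ∀ i j, i < j → ∀ p < (2 * k + 1) ^ d, ∀ r < (2 * k + 1) ^ (d + 1),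
      (G.Adj (s i p) (e j r) ↔ G.Adj (s 0 p) (e 1 r)))
    (h3 : ∀ i j, i < j → ∀ r < (2 * k + 1) ^ (d + 1), ∀ p < (2 * k + 1) ^ d,
      (G.Adj (e i r) (s j p) ↔ G.Adj (e 0 r) (s 1 p)))
    (h4 : ∀ p < (2 * k + 1) ^ d, ∀ q < (2 * k + 1) ^ d,
      (G.Adj (s 0 q) (s 1 p) ↔ Mj G k (e 1) (s 0 q) p))
    (h5 : ∀ r < (2 * k + 1) ^ (d + 1), ∀ q < (2 * k + 1) ^ d,
      (G.Adj (e 0 r) (s 1 q) ↔ Mj G k (e 1) (e 0 r) q))
    (hC : Concl G k (d + 1) e) : Concl G k d s := by
  classical
  obtain ⟨t, ht1, ht2⟩ := hC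
  -- realisation function
  have hreal : ∀ (ξ : Om.{u}) (F : Set V), ∃ b : ℕ → V, #↥F ≤ 𝔠 → (P G k d b ∧
      ∀ u ∈ F, ∀ p < (2 * k + 1) ^ d, (G.Adj u (b p) ↔ Mj G k (t ξ) u p)) := by
    intro ξ F
    by_cases hF : #↥F ≤ 𝔠
    · obtain ⟨b, hb⟩ := ht1 ξ F hF
      exact ⟨b, fun _ => hb⟩
    · exact ⟨t ξ, fun h => absurd h hF⟩
  choose real hreal using hreal
  -- a well order of the index set
  obtain ⟨_, _⟩ := exists_wellFoundedLT Om.{u}
  let FF : (ξ : Om.{u}) → ((η : Om.{u}) → η < ξ → (ℕ → V)) → Set V := fun ξ g =>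
    Set.range (fun q : Om.{u} × ULift.{u} ℕ => t q.1 q.2.down) ∪
      Set.range (fun q : {η : Om.{u} // η < ξ} × ULift.{u} ℕ => g q.1.1 q.1.2 q.2.down)
  obtain ⟨b, hb⟩ : ∃ b : Om.{u} → (ℕ → V), ∀ ξ, b ξ = real ξ (FF ξ (fun η _ => b η)) := by
    refine ⟨WellFounded.fix (wellFounded_lt (α := Om.{u})) (fun ξ g => real ξ (FF ξ g)), ?_⟩
    intro ξ
    rw [WellFounded.fix_eq]
  have hN : #(ULift.{u} ℕ) ≤ 𝔠 := by
    rw [Cardinal.mk_uLift, Cardinal.mk_nat, Cardinal.lift_aleph0]
    exact Cardinal.aleph0_le_continuum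
  have hFF : ∀ ξ, #↥(FF ξ (fun η _ => b η)) ≤ 𝔠 := by
    intro ξ
    refine (Cardinal.mk_union_le _ _).trans ?_
    have e1 : #↥(Set.range (fun q : Om.{u} × ULift.{u} ℕ => t q.1 q.2.down)) ≤ 𝔠 := by
      refine Cardinal.mk_range_le.trans ?_
      rw [Cardinal.mk_prod, Cardinal.lift_id, Cardinal.lift_id, mk_Om]
      exact (mul_le_mul' le_rfl hN).trans (Cardinal.mul_eq_self Cardinal.aleph0_le_continuum).le
    have e2 : #↥(Set.range (fun q : {η : Om.{u} // η < ξ} × ULift.{u} ℕ =>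
        (fun η _ => b η : (η : Om.{u}) → η < ξ → (ℕ → V)) q.1.1 q.1.2 q.2.down)) ≤ 𝔠 := by
      refine Cardinal.mk_range_le.trans ?_
      rw [Cardinal.mk_prod, Cardinal.lift_id, Cardinal.lift_id]
      have e3 : #{η : Om.{u} // η < ξ} ≤ 𝔠 := by
        have := Cardinal.mk_subtype_le (fun η : Om.{u} => η < ξ)
        rw [mk_Om] at this
        exact this
      exact (mul_le_mul' e3 hN).trans (Cardinal.mul_eq_self Cardinal.aleph0_le_continuum).le
    exact (add_le_add e1 e2).trans (Cardinal.add_eq_self Cardinal.aleph0_le_continuum).le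
  have hbP : ∀ ξ, P G k d (b ξ) := by
    intro ξ
    rw [hb ξ]
    exact (hreal ξ _ (hFF ξ)).1
  have hbt : ∀ ξ η r, ∀ p < (2 * k + 1) ^ d, (G.Adj (t η r) (b ξ p) ↔ Mj G k (t ξ) (t η r) p) := by
    intro ξ η r p hp
    have := (hreal ξ _ (hFF ξ)).2 (t η r) (Or.inl ⟨(η, ⟨r⟩), rfl⟩) p hp
    rw [← hb ξ] at this
    exact this
  have hbb : ∀ ξ η, η < ξ → ∀ r, ∀ p < (2 * k + 1) ^ d,
      (G.Adj (b η r) (b ξ p) ↔ Mj G k (t ξ) (b η r) p) := by
    intro ξ η hηξ r p hp
    have := (hreal ξ _ (hFF ξ)).2 (b η r) (Or.inr ⟨(⟨η, hηξ⟩, ⟨r⟩), rfl⟩) p hp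
    rw [← hb ξ] at this
    exact this
  have hsym : ∀ p < (2 * k + 1) ^ d, ∀ q < (2 * k + 1) ^ d,
      (G.Adj (s 0 p) (s 1 q) ↔ G.Adj (s 0 q) (s 1 p)) := by
    intro p hp q hq
    exact sym_of_noHalf G k hk (fun i => s i p) (fun i => s i q) _ _
      (fun i j hij => h1 i j hij p hp q hq) (fun i j hij => h1 i j hij q hq p hp)
  have hsym2 : ∀ p < (2 * k + 1) ^ d, ∀ r < (2 * k + 1) ^ (d + 1),
      (G.Adj (s 0 p) (e 1 r) ↔ G.Adj (e 0 r) (s 1 p)) := by
    intro p hp r hr
    exact sym_of_noHalf G k hk (fun i => s i p) (fun i => e i r) _ _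
      (fun i j hij => h2 i j hij p hp r hr) (fun i j hij => h3 i j hij r hr p hp)
  have main : ∀ ξ η, η < ξ → ∀ q < (2 * k + 1) ^ d, ∀ p < (2 * k + 1) ^ d,
      (G.Adj (b η q) (b ξ p) ↔ G.Adj (s 0 q) (s 1 p)) := by
    intro ξ η hηξ q hq p hp
    rw [hbb ξ η hηξ q p hp, h4 p hp q hq]
    apply mj_congr
    intro a ha
    have hr := idx_lt k d p a hp ha
    rw [hsym2 q hq _ hr, h5 _ hr q hq, G.adj_comm, hbt η ξ _ q hq]
    apply mj_congr
    intro a' ha'
    have hr' := idx_lt k d q a' hq ha'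
    exact ht2 ξ η (ne_of_gt hηξ) _ hr _ hr'
  refine ⟨b, hbP, ?_⟩
  intro ξ η hne p hp q hq
  rcases lt_or_gt_of_ne hne with h | h
  · exact main η ξ h p hp q hq
  · rw [G.adj_comm, main ξ η h q hq p hp]
    exact hsym q hq p hp

theorem star_base (G : SimpleGraph V) (k : ℕ) (W : Set V) (h : #↥W ≤ 𝔠) : Star G k W := by
  classical
  have h1 : Cardinal.lift.{0} #↥W ≤ Cardinal.lift.{u} #(Set ℕ) := by
    rw [Cardinal.mk_set_nat, Cardinal.lift_continuum, Cardinal.lift_uzero]
    exact h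
  obtain ⟨e⟩ := Cardinal.lift_mk_le'.1 h1
  let E : V → Set ℕ := fun x => if hx : x ∈ W then e ⟨x, hx⟩ else ∅
  have hE : ∀ x ∈ W, ∀ y ∈ W, E x = E y → x = y := by
    intro x hx y hy hEq
    simp only [E, dif_pos hx, dif_pos hy] at hEq
    exact congrArg Subtype.val (e.injective hEq)
  let T : ℕ → (ℕ → V) → Set ℕ := fun d b => {n | n.unpair.1 < (2 * k + 1) ^ d ∧
    n.unpair.2 ∈ E (b n.unpair.1)}
  have hT : ∀ d (a b : ℕ → V), (∀ p < (2 * k + 1) ^ d, a p ∈ W) →
      (∀ p < (2 * k + 1) ^ d, b p ∈ W) → T d a = T d b → ∀ p < (2 * k + 1) ^ d, a p = b p := by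
    intro d a b ha hb hab p hp
    apply hE _ (ha p hp) _ (hb p hp)
    ext n
    have h2 : Nat.pair p n ∈ T d a ↔ Nat.pair p n ∈ T d b := by rw [hab]
    simpa [T, hp] using h2
  refine ⟨fun d a b => if T d a = T d b then 0 else 1 + sInf {n | ¬ (n ∈ T d a ↔ n ∈ T d b)}, ?_⟩
  rintro d s hs hP ⟨c, hc⟩
  cases c with
  | zero =>
    have h2 : T d (s 0) = T d (s 1) := by
      by_contra hne
      have h3 := hc 0 1 (by norm_num)
      simp only [if_neg hne] at h3
      omega
    refine ⟨fun _ => s 0, fun _ => hP 0, ?_⟩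
    intro ξ η _ p hp q hq
    change G.Adj (s 0 p) (s 0 q) ↔ G.Adj (s 0 p) (s 1 q)
    rw [hT d _ _ (hs 0) (hs 1) h2 q hq]
  | succ c =>
    exfalso
    have key : ∀ i j, i < j → ¬ (c ∈ T d (s i) ↔ c ∈ T d (s j)) := by
      intro i j hij
      have h3 := hc i j hij
      simp only at h3
      split_ifs at h3 with h4
      have hne : {m | ¬ (m ∈ T d (s i) ↔ m ∈ T d (s j))}.Nonempty := by
        by_contra hcon
        rw [Set.not_nonempty_iff_eq_empty] at hcon
        apply h4
        ext m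
        by_contra hm
        have : m ∈ {m | ¬ (m ∈ T d (s i) ↔ m ∈ T d (s j))} := hm
        rw [hcon] at this
        exact this
      have h5 := Nat.sInf_mem hne
      have h6 : sInf {m | ¬ (m ∈ T d (s i) ↔ m ∈ T d (s j))} = c := by omega
      rw [h6] at h5
      exact h5
    have a := key 0 1 (by norm_num)
    have b := key 0 2 (by norm_num)
    have c := key 1 2 (by norm_num)
    tauto

theorem star_step (G : SimpleGraph V) (k : ℕ) (hk : ¬ HasHalf G k) (A : List V → Set V)
    (hA1 : ∀ L, #↥(A L) ≤ 𝔠) (hA2 : ∀ N, Closed A N → Rich G N)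
    (hA3 : ∀ N, Closed A N → ∀ (d : ℕ) (e b : ℕ → V), (∀ p < (2 * k + 1) ^ (d + 1), e p ∈ N) →
      P G k d b → (∀ u ∈ N, ∀ p < (2 * k + 1) ^ d, (G.Adj u (b p) ↔ Mj G k e u p)) →
      P G k (d + 1) e)
    (W : Set V) (hW : 𝔠 < #↥W) (ih : ∀ W' : Set V, #↥W' < #↥W → Star G k W') : Star G k W := by
  classical
  have h0 : ℵ₀ < #↥W := Cardinal.aleph0_lt_continuum.trans hW
  obtain ⟨_, _, hord⟩ := Cardinal.exists_ord_eq_type_lt ↥W
  let Z : ↥W → Set V := fun x => Subtype.val '' (Set.Iic x)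
  have hZ : ∀ x, #↥(Z x) < #↥W := by
    intro x
    refine (Cardinal.mk_image_le).trans_lt ?_
    have h1 : Set.Iic x = insert x (Set.Iio x) := by
      ext y
      simp only [Set.mem_Iic, Set.mem_insert_iff, Set.mem_Iio]
      exact le_iff_eq_or_lt
    rw [h1]
    refine (Cardinal.mk_insert_le).trans_lt ?_
    exact Cardinal.add_lt_of_lt h0.le (Cardinal.mk_Iio_lt x hord)
      (Cardinal.one_lt_aleph0.trans h0)
  let C : ↥W → Set V := fun x => cl A (Z x)
  have hC : ∀ x, #↥(C x) < #↥W := by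
    intro x
    have h1 : #↥(C x) ≤ max (max #↥(Z x) 𝔠) ℵ₀ :=
      mk_cl A _ (le_max_right _ _) (fun L => (hA1 L).trans ((le_max_right _ _).trans (le_max_left _ _)))
        (Z x) ((le_max_left _ _).trans (le_max_left _ _))
    exact h1.trans_lt (max_lt (max_lt (hZ x) hW) h0)
  have hCmono : ∀ x y, x ≤ y → C x ⊆ C y := by
    intro x y hxy
    apply cl_mono
    apply Set.image_mono
    intro z hz
    exact le_trans hz hxy
  have hmem : ∀ x : ↥W, (x : V) ∈ C x := by
    intro x
    exact subset_cl A _ ⟨x, le_refl x, rfl⟩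
  have hne : Nonempty ↥W := by
    by_contra hcon
    rw [not_nonempty_iff] at hcon
    rw [Cardinal.mk_eq_zero] at h0
    exact absurd h0 (not_lt.2 (Cardinal.aleph0_pos).le)
  obtain ⟨w0⟩ := hne
  obtain ⟨m0, -, hm0'⟩ := WellFounded.has_min (wellFounded_lt (α := ↥W)) Set.univ ⟨w0, trivial⟩
  have hm0 : ∀ x, m0 ≤ x := fun x => not_lt.1 (hm0' x trivial)
  let N : ↥W → Set V := fun x => {v | v ∈ cl A ∅ ∨ ∃ x', x' < x ∧ v ∈ C x'}
  have hcl0 : ∀ x, cl A ∅ ⊆ C x := fun x => cl_mono A (Set.empty_subset _)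
  have hNmono : ∀ x y, x ≤ y → N x ⊆ N y := by
    rintro x y hxy v (hv | ⟨x', hx', hv⟩)
    · exact Or.inl hv
    · exact Or.inr ⟨x', lt_of_lt_of_le hx' hxy, hv⟩
  have hCN : ∀ x y, x < y → C x ⊆ N y := fun x y hxy v hv => Or.inr ⟨x, hxy, hv⟩
  have hNlist : ∀ x (L : List V), (∀ z ∈ L, z ∈ N x) →
      (∀ z ∈ L, z ∈ cl A ∅) ∨ ∃ x', x' < x ∧ ∀ z ∈ L, z ∈ C x' := by
    intro x L
    induction L with
    | nil => intro _; left; simp
    | cons a L ihL =>
      intro h
      have ha := h a List.mem_cons_self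
      have hL := ihL (fun z hz => h z (List.mem_cons_of_mem _ hz))
      rcases ha with ha | ⟨x1, hx1, ha⟩
      · rcases hL with hL | ⟨x2, hx2, hL⟩
        · left
          intro z hz
          rcases List.mem_cons.1 hz with rfl | hz
          · exact ha
          · exact hL z hz
        · right
          refine ⟨x2, hx2, ?_⟩
          intro z hz
          rcases List.mem_cons.1 hz with rfl | hz
          · exact hcl0 _ ha
          · exact hL z hz
      · right
        rcases hL with hL | ⟨x2, hx2, hL⟩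
        · refine ⟨x1, hx1, ?_⟩
          intro z hz
          rcases List.mem_cons.1 hz with rfl | hz
          · exact ha
          · exact hcl0 _ (hL z hz)
        · refine ⟨max x1 x2, max_lt hx1 hx2, ?_⟩
          intro z hz
          rcases List.mem_cons.1 hz with rfl | hz
          · exact hCmono _ _ (le_max_left _ _) ha
          · exact hCmono _ _ (le_max_right _ _) (hL z hz)
  have hNcl : ∀ x, Closed A (N x) := by
    intro x L hL
    rcases hNlist x L hL with h | ⟨x', hx', h⟩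
    · intro y hy
      exact Or.inl (cl_closed A ∅ L h hy)
    · intro y hy
      exact Or.inr ⟨x', hx', cl_closed A _ L h hy⟩
  choose cd hcd1 hcd2 using fun x : ↥W => exists_code G k hk (N x) (hA2 _ (hNcl x))
  let enc : ↥W → (ℕ → V) → ℕ → V := fun x b r => cd x (b (r / (2 * k + 1))) (r % (2 * k + 1))
  have henc1 : ∀ x b r, enc x b r ∈ N x := fun x b r => hcd1 x _ _
  have henc2 : ∀ x b, ∀ u ∈ N x, ∀ p, (G.Adj u (b p) ↔ Mj G k (enc x b) u p) := by
    intro x b u hu p
    rw [hcd2 x (b p) u hu]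
    unfold Mj
    have h1 : (Finset.range (2 * k + 1)).filter (fun a => G.Adj u (cd x (b p) a)) =
        (Finset.range (2 * k + 1)).filter
          (fun a => G.Adj u (enc x b (p * (2 * k + 1) + a))) := by
      apply Finset.filter_congr
      intro a ha
      rw [Finset.mem_range] at ha
      have e1 : (p * (2 * k + 1) + a) / (2 * k + 1) = p := by
        rw [mul_comm, Nat.mul_add_div (by omega), Nat.div_eq_of_lt ha, add_zero]
      have e2 : (p * (2 * k + 1) + a) % (2 * k + 1) = a := by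
        rw [mul_comm, Nat.mul_add_mod, Nat.mod_eq_of_lt ha]
      simp only [enc, e1, e2]
    rw [h1]
  have henc3 : ∀ x d b, P G k d b → P G k (d + 1) (enc x b) := fun x d b hb =>
    hA3 (N x) (hNcl x) d _ b (fun p _ => henc1 x b p) hb (fun u hu p _ => henc2 x b u hu p)
  have htop : ∀ (d : ℕ) (b : ℕ → V), ∃ x : ↥W, (∃ x', ∀ p < (2 * k + 1) ^ d, b p ∈ C x') →
      (∀ p < (2 * k + 1) ^ d, b p ∈ C x) ∧
        ∀ x', (∀ p < (2 * k + 1) ^ d, b p ∈ C x') → x ≤ x' := by
    intro d b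
    by_cases h : ∃ x', ∀ p < (2 * k + 1) ^ d, b p ∈ C x'
    · obtain ⟨x, hx, hmin⟩ := WellFounded.has_min (wellFounded_lt (α := ↥W))
        {x' | ∀ p < (2 * k + 1) ^ d, b p ∈ C x'} h
      exact ⟨x, fun _ => ⟨hx, fun x' hx' => not_lt.1 (hmin x' hx')⟩⟩
    · exact ⟨w0, fun h' => absurd h' h⟩
  choose top htop using htop
  let E : ℕ → (ℕ → V) → (ℕ → V) := fun d b => enc (top d b) b
  have hE : ∀ d b, (∃ x', ∀ p < (2 * k + 1) ^ (d + 1), E d b p ∈ C x') ∧
      (top (d + 1) (E d b) = m0 ∨ top (d + 1) (E d b) < top d b) := by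
    intro d b
    have h1 := hNlist (top d b) ((List.range ((2 * k + 1) ^ (d + 1))).map (E d b)) (by
      intro z hz
      obtain ⟨i, _, rfl⟩ := List.mem_map.1 hz
      exact henc1 _ _ _)
    have h2 : ∀ p < (2 * k + 1) ^ (d + 1),
        E d b p ∈ (List.range ((2 * k + 1) ^ (d + 1))).map (E d b) := by
      intro p hp
      exact List.mem_map.2 ⟨p, List.mem_range.2 hp, rfl⟩
    rcases h1 with h1 | ⟨x', hx', h1⟩
    · have h3 : ∀ p < (2 * k + 1) ^ (d + 1), E d b p ∈ C m0 :=
        fun p hp => hcl0 _ (h1 _ (h2 p hp))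
      refine ⟨⟨m0, h3⟩, Or.inl ?_⟩
      exact le_antisymm ((htop (d + 1) (E d b) ⟨m0, h3⟩).2 m0 h3) (hm0 _)
    · have h3 : ∀ p < (2 * k + 1) ^ (d + 1), E d b p ∈ C x' :=
        fun p hp => h1 _ (h2 p hp)
      refine ⟨⟨x', h3⟩, Or.inr ?_⟩
      exact lt_of_le_of_lt ((htop (d + 1) (E d b) ⟨x', h3⟩).2 x' h3) hx'
  let topm : ℕ → ℕ → (ℕ → V) → ↥W := fun m => Nat.rec (motive := fun _ => ℕ → (ℕ → V) → ↥W)
    (fun d b => top d b) (fun _ r d b => r (d + 1) (E d b)) m
  have htopm : ∀ m d b, topm (m + 1) d b = topm m (d + 1) (E d b) := fun _ _ _ => rfl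
  have htopm0 : ∀ d b, topm 0 d b = top d b := fun _ _ => rfl
  have hmm : ∀ m d b, top d b = m0 → topm m d b = m0 := by
    intro m
    induction m with
    | zero => intro d b h; exact h
    | succ m ihm =>
      intro d b h
      rw [htopm]
      apply ihm
      rcases (hE d b).2 with h1 | h1
      · exact h1
      · rw [h] at h1
        exact absurd h1 (not_lt.2 (hm0 _))
  have hev : ∀ x : ↥W, ∀ d b, top d b = x → ∃ M, ∀ m, M ≤ m → topm m d b = m0 := by
    intro x
    induction x using WellFoundedLT.induction with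
    | ind x ihx =>
      intro d b hx
      rcases (hE d b).2 with h1 | h1
      · refine ⟨1, fun m hm => ?_⟩
        obtain ⟨m', rfl⟩ : ∃ m', m = m' + 1 := ⟨m - 1, by omega⟩
        rw [htopm]
        exact hmm m' _ _ h1
      · rw [hx] at h1
        obtain ⟨M, hM⟩ := ihx _ h1 (d + 1) (E d b) rfl
        refine ⟨M + 1, fun m hm => ?_⟩
        obtain ⟨m', rfl⟩ : ∃ m', m = m' + 1 := ⟨m - 1, by omega⟩
        rw [htopm]
        exact hM m' (by omega)
  choose FC hFC using fun x => ih (C x) (hC x)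
  let pat : ℕ → ℕ → (ℕ → V) → (ℕ → V) → Finset (ℕ × ℕ) := fun m n a b =>
    (Finset.range m ×ˢ Finset.range n).filter (fun q => G.Adj (a q.1) (b q.2))
  have hpat : ∀ m n a b a' b', pat m n a b = pat m n a' b' → ∀ p < m, ∀ q < n,
      (G.Adj (a p) (b q) ↔ G.Adj (a' p) (b' q)) := by
    intro m n a b a' b' h p hp q hq
    have h1 : (p, q) ∈ pat m n a b ↔ (p, q) ∈ pat m n a' b' := by rw [h]
    simpa [pat, hp, hq] using h1
  let col : ℕ → ℕ → (ℕ → V) → (ℕ → V) → ℕ := fun D => Nat.rec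
    (motive := fun _ => ℕ → (ℕ → V) → (ℕ → V) → ℕ)
    (fun d a b => FC (top d a) d a b)
    (fun _ r d a b => Encodable.encode (decide (top d a < top d b),
      pat ((2 * k + 1) ^ d) ((2 * k + 1) ^ d) a b,
      pat ((2 * k + 1) ^ d) ((2 * k + 1) ^ (d + 1)) a (E d b),
      pat ((2 * k + 1) ^ (d + 1)) ((2 * k + 1) ^ d) (E d a) b,
      r (d + 1) (E d a) (E d b))) D
  have hcol0 : ∀ d a b, col 0 d a b = FC (top d a) d a b := fun _ _ _ => rfl
  have hcol1 : ∀ D d a b, col (D + 1) d a b = Encodable.encode (decide (top d a < top d b),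
      pat ((2 * k + 1) ^ d) ((2 * k + 1) ^ d) a b,
      pat ((2 * k + 1) ^ d) ((2 * k + 1) ^ (d + 1)) a (E d b),
      pat ((2 * k + 1) ^ (d + 1)) ((2 * k + 1) ^ d) (E d a) b,
      col D (d + 1) (E d a) (E d b)) := fun _ _ _ _ => rfl
  clear_value col topm
  have main : ∀ D d (s : ℕ → ℕ → V), (∀ i, ∃ x', ∀ p < (2 * k + 1) ^ d, s i p ∈ C x') →
      (∀ i, P G k d (s i)) →
      (∀ i j, i < j → topm D d (s i) = topm D d (s j)) →
      (∀ i j, i < j → ∀ m < D, topm m d (s i) ≠ topm m d (s j)) →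
      (∃ c, ∀ i j, i < j → col D d (s i) (s j) = c) → Concl G k d s := by
    intro D
    induction D with
    | zero =>
      rintro d s hs hP hD - ⟨c, hc⟩
      have htopeq : ∀ i, top d (s i) = top d (s 0) := by
        intro i
        rcases Nat.eq_zero_or_pos i with h | h
        · rw [h]
        · have := hD 0 i h
          rw [htopm0, htopm0] at this
          exact this.symm
      refine hFC (top d (s 0)) d s ?_ hP ⟨c, ?_⟩
      · intro i p hp
        have := (htop d (s i) (hs i)).1 p hp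
        rw [htopeq i] at this
        exact this
      · intro i j hij
        have := hc i j hij
        rw [hcol0, htopeq i] at this
        exact this
    | succ D ihD =>
      rintro d s hs hP hD hne ⟨c, hc⟩
      have hcomp := fun i j (hij : i < j) => Encodable.encode_injective
        (((hcol1 D d (s i) (s j)).symm.trans (hc i j hij)).trans
          ((hc 0 1 (by norm_num)).symm.trans (hcol1 D d (s 0) (s 1))))
      simp only [Prod.mk.injEq] at hcomp
      have hlt : ∀ i j, i < j → top d (s i) < top d (s j) := by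
        by_cases h01 : top d (s 0) < top d (s 1)
        · intro i j hij
          have h1 := (hcomp i j hij).1
          rw [decide_eq_decide] at h1
          exact h1.2 h01
        · exfalso
          have hgt : ∀ i j, i < j → top d (s j) < top d (s i) := by
            intro i j hij
            have h1 := (hcomp i j hij).1
            rw [decide_eq_decide] at h1
            have h2 : ¬ top d (s i) < top d (s j) := fun h => h01 (h1.1 h)
            have h3 := hne i j hij 0 (by omega)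
            rw [htopm0, htopm0] at h3
            exact lt_of_le_of_ne (not_lt.1 h2) (Ne.symm h3)
          obtain ⟨_, ⟨n, rfl⟩, hmin⟩ := WellFounded.has_min (wellFounded_lt (α := ↥W))
            (Set.range (fun n => top d (s n))) ⟨_, ⟨0, rfl⟩⟩
          exact hmin _ ⟨n + 1, rfl⟩ (hgt n (n + 1) (by omega))
      refine extend G k hk d s (fun i => E d (s i)) ?_ ?_ ?_ ?_ ?_ ?_
      · intro i j hij p hp q hq
        exact hpat _ _ _ _ _ _ (hcomp i j hij).2.1 p hp q hq
      · intro i j hij p hp r hr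
        exact hpat _ _ _ _ _ _ (hcomp i j hij).2.2.1 p hp r hr
      · intro i j hij r hr p hp
        exact hpat _ _ _ _ _ _ (hcomp i j hij).2.2.2.1 r hr p hp
      · intro p hp q hq
        exact henc2 (top d (s 1)) (s 1) (s 0 q)
          (hCN _ _ (hlt 0 1 (by norm_num)) ((htop d (s 0) (hs 0)).1 q hq)) p
      · intro r hr q hq
        exact henc2 (top d (s 1)) (s 1) (E d (s 0) r)
          (hNmono _ _ (hlt 0 1 (by norm_num)).le (henc1 _ _ _)) q
      · refine ihD (d + 1) (fun i => E d (s i)) ?_ ?_ ?_ ?_ ?_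
        · intro i
          exact (hE d (s i)).1
        · intro i
          exact henc3 _ d (s i) (hP i)
        · intro i j hij
          have := hD i j hij
          rw [htopm, htopm] at this
          exact this
        · intro i j hij m hm
          have := hne i j hij (m + 1) (by omega)
          rw [htopm, htopm] at this
          exact this
        · exact ⟨_, fun i j hij => (hcomp i j hij).2.2.2.2⟩
  have hWvalid : ∀ n (b : ℕ → V), (∀ p < n, b p ∈ W) → ∃ x', ∀ p < n, b p ∈ C x' := by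
    intro n b
    induction n with
    | zero => intro _; exact ⟨w0, fun p hp => absurd hp (by omega)⟩
    | succ n ihn =>
      intro h
      obtain ⟨x', hx'⟩ := ihn (fun p hp => h p (by omega))
      refine ⟨max x' ⟨b n, h n (by omega)⟩, ?_⟩
      intro p hp
      rcases Nat.lt_succ_iff_lt_or_eq.1 hp with hp | hp
      · exact hCmono _ _ (le_max_left _ _) (hx' p hp)
      · rw [hp]
        exact hCmono _ _ (le_max_right _ _) (hmem ⟨b n, h n (by omega)⟩)
  let DD : ℕ → (ℕ → V) → (ℕ → V) → ℕ := fun d a b => sInf {m | topm m d a = topm m d b}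
  have hDD1 : ∀ d a b, topm (DD d a b) d a = topm (DD d a b) d b := by
    intro d a b
    have hne : {m | topm m d a = topm m d b}.Nonempty := by
      obtain ⟨M, hM⟩ := hev _ d a rfl
      obtain ⟨M', hM'⟩ := hev _ d b rfl
      exact ⟨max M M', (hM _ (le_max_left _ _)).trans (hM' _ (le_max_right _ _)).symm⟩
    exact Nat.sInf_mem hne
  have hDD2 : ∀ d a b, ∀ m < DD d a b, topm m d a ≠ topm m d b := by
    intro d a b m hm h
    exact Nat.notMem_of_lt_sInf hm h
  refine ⟨fun d a b => Nat.pair (DD d a b) (col (DD d a b) d a b), ?_⟩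
  rintro d s hs hP ⟨c, hc⟩
  have hc1 : ∀ i j, i < j → DD d (s i) (s j) = c.unpair.1 := by
    intro i j hij
    rw [← hc i j hij, Nat.unpair_pair]
  have hc2 : ∀ i j, i < j → col c.unpair.1 d (s i) (s j) = c.unpair.2 := by
    intro i j hij
    have h1 := hc i j hij
    simp only [hc1 i j hij] at h1
    rw [← h1, Nat.unpair_pair]
  refine main c.unpair.1 d s (fun i => hWvalid _ _ (hs i)) hP ?_ ?_ ⟨c.unpair.2, hc2⟩
  · intro i j hij
    rw [← hc1 i j hij]
    exact hDD1 _ _ _
  · intro i j hij m hm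
    rw [← hc1 i j hij] at hm
    exact hDD2 _ _ _ m hm

theorem star_all (G : SimpleGraph V) (k : ℕ) (hk : ¬ HasHalf G k) (W : Set V) : Star G k W := by
  rcases isEmpty_or_nonempty V with h | ⟨⟨v0⟩⟩
  · apply star_base G k W
    have h1 : #↥W = 0 := by
      rw [Cardinal.mk_eq_zero_iff]
      exact ⟨fun x => h.false x.1⟩
    rw [h1]
    exact bot_le
  · obtain ⟨A, hA1, hA2, hA3⟩ := exists_A G k v0
    have key : ∀ κ : Cardinal.{u}, ∀ W : Set V, #↥W = κ → Star G k W := by
      intro κ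
      induction κ using WellFoundedLT.induction with
      | ind κ ih =>
        intro W hW
        by_cases h2 : #↥W ≤ 𝔠
        · exact star_base G k W h2
        push Not at h2
        exact star_step G k hk A hA1 hA2 hA3 W h2 (fun W' hW' => ih _ (hW ▸ hW') W' rfl)
    exact key _ W rfl

/-- the key colouring: a monochromatic sequence of adjacent vertices yields a clique of size
continuum -/
theorem exists_colouring (G : SimpleGraph V) (k : ℕ) (hk : ¬ HasHalf G k) :
    ∃ f : V → V → ℕ, ∀ x : ℕ → V, (∃ c, ∀ i j, i < j → f (x i) (x j) = c) →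
      G.Adj (x 0) (x 1) → ∃ S : Set V, G.IsClique S ∧ 𝔠 ≤ #↥S := by
  obtain ⟨F, hF⟩ := star_all G k hk Set.univ
  refine ⟨fun x y => F 0 (fun _ => x) (fun _ => y), ?_⟩
  rintro x ⟨c, hc⟩ hadj
  obtain ⟨t, -, ht⟩ := hF 0 (fun i _ => x i) (fun _ _ _ => trivial) (fun _ => trivial) ⟨c, hc⟩
  have hg : ∀ ξ η, ξ ≠ η → G.Adj (t ξ 0) (t η 0) :=
    fun ξ η hne => (ht ξ η hne 0 (by simp) 0 (by simp)).2 hadj
  have hinj : Function.Injective (fun ξ => t ξ 0) := by
    intro ξ η h
    by_contra hne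
    exact (hg ξ η hne).ne h
  refine ⟨Set.range (fun ξ => t ξ 0), ?_, ?_⟩
  · rintro _ ⟨ξ, rfl⟩ _ ⟨η, rfl⟩ hne
    exact hg ξ η (fun h => hne (by rw [h]))
  · rw [Cardinal.mk_range_eq _ hinj, mk_Om]

theorem main (G : SimpleGraph V) (H : ℕ → SimpleGraph V)
    (hcov : ∀ x y, G.Adj x y → ∃ n, (H n).Adj x y)
    (hcl : ∀ (n : ℕ) (S : Set V), (H n).IsClique S → #↥S < 𝔠)
    (hG : ∀ c : G.edgeSet → ℕ, ∃ (S : Set V) (hS : G.IsClique S), S.Infinite ∧
      ∃ m : ℕ, ∀ (x : V) (hx : x ∈ S) (y : V) (hy : y ∈ S) (hxy : x ≠ y),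
        c ⟨s(x, y), hS hx hy hxy⟩ = m) :
    ∃ n, ∀ k, HasHalf (H n) k := by
  classical
  by_contra hcon
  push Not at hcon
  choose k hk using hcon
  choose f hf using fun n => exists_colouring (H n) (k n) (hk n)
  obtain ⟨_, _⟩ := exists_wellFoundedLT V
  -- the index of a pair
  let ix : V → V → ℕ := fun x y => sInf {n | (H n).Adj x y}
  have hix : ∀ x y, G.Adj x y → (H (ix x y)).Adj x y := by
    intro x y h
    exact Nat.sInf_mem (s := {n | (H n).Adj x y}) (hcov x y h)
  let g : V → V → ℕ := fun x y => Nat.pair (ix (min x y) (max x y))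
    (f (ix (min x y) (max x y)) (min x y) (max x y))
  have hgs : ∀ x y, g x y = g y x := by
    intro x y
    simp only [g, min_comm x y, max_comm x y]
  obtain ⟨S, hS, hinf, m, hm⟩ := hG (fun e => Sym2.lift ⟨g, hgs⟩ e.1)
  let e := hinf.natEmbedding
  have hne : ∀ i j, i ≠ j → (e i : V) ≠ (e j : V) :=
    fun i j hij h => hij (e.injective (Subtype.ext h))
  obtain ⟨r, hr1, hr2⟩ := exists_increasing (fun i => (e i : V)) hne
  have hadj : ∀ i j, i < j → G.Adj (e (r i) : V) (e (r j) : V) := by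
    intro i j hij
    exact hS (e (r i)).2 (e (r j)).2 (hr2 hij).ne
  have hcol : ∀ i j, i < j → g (e (r i) : V) (e (r j) : V) = m := by
    intro i j hij
    have := hm (e (r i)) (e (r i)).2 (e (r j)) (e (r j)).2 (hr2 hij).ne
    simpa using this
  have hcol2 : ∀ i j, i < j → Nat.pair (ix (e (r i) : V) (e (r j) : V))
      (f (ix (e (r i) : V) (e (r j) : V)) (e (r i) : V) (e (r j) : V)) = m := by
    intro i j hij
    have h1 := hcol i j hij
    have h2 : (e (r i) : V) ≤ (e (r j) : V) := (hr2 hij).le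
    simp only [g, min_eq_left h2, max_eq_right h2] at h1
    exact h1
  have h1 : ∀ i j, i < j → ix (e (r i) : V) (e (r j) : V) = m.unpair.1 := by
    intro i j hij
    rw [← hcol2 i j hij, Nat.unpair_pair]
  have h2 : ∀ i j, i < j → f m.unpair.1 (e (r i) : V) (e (r j) : V) = m.unpair.2 := by
    intro i j hij
    have h3 := hcol2 i j hij
    rw [h1 i j hij] at h3
    have h4 := congrArg (fun z => z.unpair.2) h3
    simpa using h4
  obtain ⟨T, hT1, hT2⟩ := hf m.unpair.1 (fun i => (e (r i) : V)) ⟨m.unpair.2, h2⟩ (by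
    have h3 := hix _ _ (hadj 0 1 (by norm_num))
    rw [h1 0 1 (by norm_num)] at h3
    exact h3)
  exact absurd (hcl _ T hT1) (not_lt.2 hT2)

end Pool.Agent.Lib.MP_e45b43_lc.Stable
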