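import Pool.Agent.Lib.MP_e45b43_lc.Special
import Pool.Agent.Lib.MP_e45b43_lc.Labels
import Pool.Agent.Lib.MP_e45b43_lc.Bad

/-!
# Graphs whose adjacency is determined by the labels of the coordinates in a labelled linear order
-/

set_option autoImplicit false

universe u v w

namespace Pool.Agent.Lib.MP_e45b43_lc

section

variable {V : Type u} {L : Type v} [LinearOrder L]

/-- the colours of `z` and `y` and the labels of their coordinates -/
def info (r : L → L → ℕ) (p : V → ℕ) {n : ℕ} (f : V → Fin n → L) (z y : V) :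
    (ℕ × ℕ) × (Fin n → Fin n → ℕ) × (Fin n → Fin n → ℕ) × (Fin n → Fin n → ℕ) ×
      (Fin n → Fin n → ℕ) :=
  ((p z, p y), fun i j => r (f z i) (f z j), fun i j => r (f y i) (f y j),
    fun i j => r (f z i) (f y j), fun i j => r (f y i) (f z j))

/-- `a` and `b` lie strictly on the same side of `c` -/
def same (a b c : L) : Prop := (a < c ∧ b < c) ∨ (c < a ∧ c < b)

/-- `c` lies strictly between `a` and `b` -/
def opp (a b c : L) : Prop := (a < c ∧ c < b) ∨ (b < c ∧ c < a)

/-- the pairs that can occur in monochromatic sequences -/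
structure Ok (r : L → L → ℕ) (p : V → ℕ) {n : ℕ} (f : V → Fin n → L) (z y : V) : Prop where
  gp : p z = p y
  g0 : ∀ a b, f z b ≠ f y b → f z a ≠ f y b
  g1 : ∀ i j, r (f z i) (f z j) = r (f y i) (f y j)
  g2 : ∀ a b, opp (f z a) (f z b) (f y b) → r (f z a) (f z b) = r (f z a) (f y b)

open Classical in
/-- lower ends -/
noncomputable def uu (idx : L → Ordinal.{w}) (idV : V → Ordinal.{w}) (r : L → L → ℕ) {n : ℕ}
    (f : V → Fin n → L) (y z : V) : Option (Fin n) → Ordinal.{w}
  | none => idV z
  | some b => if f z b = f y b then idV z else ft idx r (f z b) (f y b)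

open Classical in
/-- upper ends -/
noncomputable def vv (idx : L → Ordinal.{w}) (idV : V → Ordinal.{w}) {n : ℕ}
    (f : V → Fin n → L) (y z : V) : Option (Fin n) → Ordinal.{w}
  | none => idV z
  | some b => if f z b = f y b then idV z else
      Finset.univ.sup fun a => if same (f z a) (f z b) (f y b) then fs idx (f z a) (f y b) else ⊥

theorem fs_le_vv {idx : L → Ordinal.{w}} {idV : V → Ordinal.{w}} {n : ℕ} {f : V → Fin n → L}
    {y z : V} {a b : Fin n} (h : f z b ≠ f y b) (hs : same (f z a) (f z b) (f y b)) :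
    fs idx (f z a) (f y b) ≤ vv idx idV f y z (some b) := by
  unfold vv
  simp only [if_neg h]
  refine le_trans ?_ (Finset.le_sup (Finset.mem_univ a))
  rw [if_pos hs]

theorem uu_le_vv {idx : L → Ordinal.{w}} {idV : V → Ordinal.{w}} {r : L → L → ℕ} (hr : IsLab r)
    {n : ℕ} {f : V → Fin n → L} (y z : V) (k : Option (Fin n)) :
    uu idx idV r f y z k ≤ vv idx idV f y z k := by
  cases k with
  | none => exact le_rfl
  | some b =>
    by_cases h : f z b = f y b
    · simp only [uu, vv, if_pos h, le_refl]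
    · have hs : same (f z b) (f z b) (f y b) := by
        rcases lt_or_gt_of_ne h with h1 | h1
        · exact Or.inl ⟨h1, h1⟩
        · exact Or.inr ⟨h1, h1⟩
      refine le_trans ?_ (fs_le_vv h hs)
      simp only [uu, if_neg h]
      exact ft_le_fs hr h

/-- the hypothesis: adjacency of two different vertices depends only on their colours and on the
labels of their coordinates -/
def Det (H : SimpleGraph V) (r : L → L → ℕ) (p : V → ℕ) {n : ℕ} (f : V → Fin n → L) : Prop :=
  ∀ x y x' y' : V, x ≠ y → x' ≠ y' → p x = p x' → p y = p y' →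
    (∀ i j, r (f x i) (f x j) = r (f x' i) (f x' j)) →
    (∀ i j, r (f y i) (f y j) = r (f y' i) (f y' j)) →
    (∀ i j, r (f x i) (f y j) = r (f x' i) (f y' j)) → (H.Adj x y ↔ H.Adj x' y')

/-- chains are cliques -/
theorem adj_of_lt {H : SimpleGraph V} {idx : L → Ordinal.{w}} {idV : V → Ordinal.{w}}
    {r : L → L → ℕ} (hr : IsLab r) {p : V → ℕ} {n : ℕ} {f : V → Fin n → L} (hf : Det H r p f)
    {y z z' : V} (hzy : H.Adj z y) (hok : Ok r p f z y) (hok' : Ok r p f z' y)
    (hinfo : info r p f z y = info r p f z' y) (hne : z ≠ z')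
    (hlt : ∀ k, vv idx idV f y z k < uu idx idV r f y z' k) : H.Adj z z' := by
  have hi3 : ∀ i j, r (f z i) (f y j) = r (f z' i) (f y j) := fun i j =>
    congrFun (congrFun (congrArg (fun p => p.2.2.2.1) hinfo) i) j
  have hi4 : ∀ i j, r (f y i) (f z j) = r (f y i) (f z' j) := fun i j =>
    congrFun (congrFun (congrArg (fun p => p.2.2.2.2) hinfo) i) j
  refine (hf z z' z y hne hzy.ne rfl hok'.gp (fun _ _ => rfl) (fun i j => hok'.g1 i j) fun i j => ?_).2 hzy
  by_cases hj' : f z' j = f y j
  · rw [hj']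
  have hj : f z j ≠ f y j := fun h => hj' ((hr.eq (hi3 j j)).1 h)
  have hij : f z i ≠ f y j := hok.g0 i j hj
  have hcases : same (f z i) (f z j) (f y j) ∨ opp (f z i) (f z j) (f y j) := by
    rcases lt_or_gt_of_ne hj with h1 | h1 <;> rcases lt_or_gt_of_ne hij with h2 | h2
    · exact Or.inl (Or.inl ⟨h2, h1⟩)
    · exact Or.inr (Or.inr ⟨h1, h2⟩)
    · exact Or.inr (Or.inl ⟨h2, h1⟩)
    · exact Or.inl (Or.inr ⟨h2, h1⟩)
  rcases hcases with hs | ho
  · apply label_eq (idx := idx) hr hij
    have h1 := fs_le_vv (idx := idx) (idV := idV) hj hs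
    have h2 := hlt (some j)
    have h3 : uu idx idV r f y z' (some j) = ft idx r (f y j) (f z' j) := by
      simp only [uu, if_neg hj']
      exact ft_comm _ _ _ _
    rw [h3] at h2
    exact lt_of_le_of_lt h1 h2
  · have h1 := hok.g2 i j ho
    rw [← h1]
    have hbet : (f z i < f y j ∧ f y j < f z j) ∨ (f z j < f y j ∧ f y j < f z i) := ho
    have hbet' : (f z i < f y j ∧ f y j < f z' j) ∨ (f z' j < f y j ∧ f y j < f z i) := by
      have h2 := hr.sgn _ _ _ _ (hi3 j j)
      rcases hbet with ⟨h3, h4⟩ | ⟨h3, h4⟩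
      · exact Or.inl ⟨h3, h2.2.1 h4⟩
      · exact Or.inr ⟨h2.1.1 h3, h4⟩
    exact hr.add _ _ _ _ _ _ hbet' rfl (hi4 j j).symm

/-- the three consequences of constant labels along a sequence -/
theorem ok_of_const {r : L → L → ℕ} (hr : IsLab r) {p : V → ℕ} {n : ℕ} {f : V → Fin n → L} (x : ℕ → V)
    (hx : ∀ i k, i < k → info r p f (x i) (x k) = info r p f (x 0) (x 1)) {i k : ℕ} (hik : i < k) :
    Ok r p f (x i) (x k) := by
  have h1 : ∀ i k, i < k → ∀ a b, r (f (x i) a) (f (x i) b) = r (f (x 0) a) (f (x 0) b) :=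
    fun i k hik a b => congrFun (congrFun (congrArg (fun p => p.2.1) (hx i k hik)) a) b
  have h2 : ∀ i k, i < k → ∀ a b, r (f (x k) a) (f (x k) b) = r (f (x 1) a) (f (x 1) b) :=
    fun i k hik a b => congrFun (congrFun (congrArg (fun p => p.2.2.1) (hx i k hik)) a) b
  have h3 : ∀ i k, i < k → ∀ a b, r (f (x i) a) (f (x k) b) = r (f (x 0) a) (f (x 1) b) :=
    fun i k hik a b => congrFun (congrFun (congrArg (fun p => p.2.2.2.1) (hx i k hik)) a) b
  have h4 : ∀ i k, i < k → ∀ a b, r (f (x k) a) (f (x i) b) = r (f (x 1) a) (f (x 0) b) :=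
    fun i k hik a b => congrFun (congrFun (congrArg (fun p => p.2.2.2.2) (hx i k hik)) a) b
  have h5 : ∀ i k, i < k → p (x i) = p (x 0) := fun i k hik =>
    congrArg (fun p => p.1.1) (hx i k hik)
  have h6 : ∀ i k, i < k → p (x k) = p (x 1) := fun i k hik =>
    congrArg (fun p => p.1.2) (hx i k hik)
  refine ⟨?_, fun a b hne heq => ?_, fun a b => ?_, fun a b ho => ?_⟩
  · rw [h5 i k hik, h6 i k hik]
    exact (h5 1 2 (by norm_num)).symm
  · -- all `x i a` equal all later `x k b`
    have e1 : ∀ i k, i < k → f (x i) a = f (x k) b := fun i' k' h =>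
      (hr.eq ((h3 i' k' h a b).trans (h3 i k hik a b).symm)).2 heq
    apply hne
    have e2 : f (x 1) b = f (x 2) b := by
      rw [← e1 0 1 (by norm_num), ← e1 0 2 (by norm_num)]
    exact (hr.eq ((h3 i k hik b b).trans (h3 1 2 (by norm_num) b b).symm)).2 e2
  · rw [h1 i k hik, h2 i k hik, ← h2 0 1 (by norm_num), h1 1 2 (by norm_num)]
  · -- use the index `k + 1`
    have hik' : i < k + 1 := by omega
    have hkk : k < k + 1 := Nat.lt_succ_self k
    have s1 := hr.sgn _ _ _ _ ((h3 i k hik a b).trans (h3 i (k + 1) hik' a b).symm)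
    have s2 := hr.sgn _ _ _ _ ((h3 i k hik b b).trans (h3 i (k + 1) hik' b b).symm)
    have s3 := hr.sgn _ _ _ _ ((h3 i k hik b b).trans (h3 k (k + 1) hkk b b).symm)
    have hb1 : (f (x i) a < f (x (k + 1)) b ∧ f (x (k + 1)) b < f (x k) b) ∨
        (f (x k) b < f (x (k + 1)) b ∧ f (x (k + 1)) b < f (x i) a) := by
      rcases ho with ⟨h5, h6⟩ | ⟨h5, h6⟩
      · exact Or.inl ⟨s1.1.1 h5, s3.2.1 h6⟩
      · exact Or.inr ⟨s3.1.1 h5, s1.2.1 h6⟩
    have h7 := hr.add (f (x i) a) (f (x (k + 1)) b) (f (x k) b) (f (x i) a) (f (x (k + 1)) b)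
      (f (x i) b) hb1 rfl ((h4 k (k + 1) hkk b b).trans (h4 i (k + 1) hik' b b).symm)
    exact h7.symm

/-- in a sequence with constant labels some triple increases -/
theorem exists_triple {idx : L → Ordinal.{w}} (hidx : Function.Injective idx)
    {idV : V → Ordinal.{w}} {r : L → L → ℕ} (hr : IsLab r) {p : V → ℕ} {n : ℕ}
    {f : V → Fin n → L} (x : ℕ → V) (hV : ∀ i k, i < k → idV (x i) < idV (x k))
    (hx : ∀ i k, i < k → info r p f (x i) (x k) = info r p f (x 0) (x 1)) :
    ∃ j k, 0 < j ∧ j < k ∧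
      ∀ o, vv idx idV f (x k) (x 0) o < uu idx idV r f (x k) (x j) o := by
  have h3 : ∀ i k, i < k → ∀ a b, r (f (x i) a) (f (x k) b) = r (f (x 0) a) (f (x 1) b) :=
    fun i k hik a b => congrFun (congrFun (congrArg (fun p => p.2.2.2.1) (hx i k hik)) a) b
  have h4 : ∀ i k, i < k → ∀ a b, r (f (x k) a) (f (x i) b) = r (f (x 1) a) (f (x 0) b) :=
    fun i k hik a b => congrFun (congrFun (congrArg (fun p => p.2.2.2.2) (hx i k hik)) a) b
  have hex : ∀ b : Fin n, ∃ N, f (x 0) b ≠ f (x 1) b → ∀ j k, N ≤ j → N ≤ k → j ≠ k →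
      fs idx (f (x 1) b) (f (x k) b) < ft idx r (f (x j) b) (f (x k) b) := by
    intro b
    by_cases hb : f (x 0) b = f (x 1) b
    · exact ⟨0, fun h => absurd hb h⟩
    · obtain ⟨N, hN⟩ := late hidx hr (fun i => f (x i) b) _ _
        (fun i k hik => h3 i k hik b b) (fun i k hik => h4 i k hik b b) hb
      exact ⟨N, fun _ => hN⟩
  choose N hN using hex
  obtain ⟨M, hM⟩ : ∃ M, ∀ b, N b ≤ M := ⟨Finset.univ.sup N, fun b => Finset.le_sup (Finset.mem_univ b)⟩
  refine ⟨M + 2, M + 3, by omega, by omega, fun o => ?_⟩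
  cases o with
  | none => exact hV 0 (M + 2) (by omega)
  | some b =>
    have s0 := hr.eq (h3 0 (M + 3) (by omega) b b)
    have sj := hr.eq ((h3 (M + 2) (M + 3) (by omega) b b))
    by_cases hb : f (x 0) b = f (x 1) b
    · simp only [uu, vv, if_pos (s0.2 hb), if_pos (sj.2 hb)]
      exact hV 0 (M + 2) (by omega)
    · have hb0 : f (x 0) b ≠ f (x (M + 3)) b := fun h => hb (s0.1 h)
      have hbj : f (x (M + 2)) b ≠ f (x (M + 3)) b := fun h => hb (sj.1 h)
      have hb1 : f (x 1) b ≠ f (x (M + 3)) b := fun h =>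
        hb ((hr.eq (h3 1 (M + 3) (by omega) b b)).1 h)
      have hlate := hN b hb (M + 2) (M + 3) (by have := hM b; omega) (by have := hM b; omega)
        (by omega)
      simp only [uu, vv, if_neg hb0, if_neg hbj]
      rw [Finset.sup_lt_iff (lt_of_le_of_lt bot_le hlate)]
      intro a _
      split_ifs with hs
      · refine lt_of_le_of_lt ?_ hlate
        by_contra hcon
        rw [not_le, fs_comm idx (f (x 0) a)] at hcon
        have t1 := side_eq hb1 hcon
        have t2 := hr.sgn _ _ _ _ ((h3 0 1 (by norm_num) a b).trans (h3 0 (M + 3) (by omega) a b).symm)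
        have t3 := hr.sgn _ _ _ _ ((h3 1 (M + 3) (by omega) b b).trans (h3 0 (M + 3) (by omega) b b).symm)
        rcases hs with ⟨h5, h6⟩ | ⟨h5, h6⟩
        · have h7 : f (x 0) a < f (x 1) b := t2.1.2 h5
          have h8 : f (x (M + 3)) b < f (x 1) b := t1.2.1 h7
          have h9 : f (x 1) b < f (x (M + 3)) b := t3.1.2 h6
          exact absurd h8 h9.not_gt
        · have h7 : f (x 1) b < f (x 0) a := t2.2.2 h5
          have h8 : f (x 1) b < f (x (M + 3)) b := t1.1.1 h7
          have h9 : f (x (M + 3)) b < f (x 1) b := t3.2.2 h6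
          exact absurd h8 h9.not_gt
      · exact lt_of_le_of_lt bot_le hlate

end

/-- **Main theorem.** If adjacency is determined by labels and every clique is countable, there is
a colouring by natural numbers without infinite monochromatic clique. -/
theorem typed_bad {V : Type u} (H : SimpleGraph V) {L : Type v} [LinearOrder L] (r : L → L → ℕ)
    (hr : IsLab r) (p : V → ℕ) (n : ℕ) (f : V → Fin n → L) (hf : Det H r p f)
    (hc : ∀ S : Set V, H.IsClique S → S.Countable) : Bad H := by
  classical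
  -- indices
  let idx : L → Ordinal.{max u v} := fun a =>
    Ordinal.lift.{u} (Ordinal.typein (WellOrderingRel (α := L)) a)
  have hidx : Function.Injective idx := fun a b h =>
    Ordinal.typein_injective _ (Ordinal.lift_inj.1 h)
  let idV : V → Ordinal.{max u v} := fun a =>
    Ordinal.lift.{v} (Ordinal.typein (WellOrderingRel (α := V)) a)
  have hidV : Function.Injective idV := fun a b h =>
    Ordinal.typein_injective _ (Ordinal.lift_inj.1 h)
  -- the colourings below a vertex
  have hcol : ∀ (y : V) (t : (ℕ × ℕ) × (Fin n → Fin n → ℕ) × (Fin n → Fin n → ℕ) ×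
      (Fin n → Fin n → ℕ) × (Fin n → Fin n → ℕ)), ∃ col : V → ℕ, ∀ z z' : V, H.Adj z y → H.Adj z' y →
        Ok r p f z y → Ok r p f z' y → info r p f z y = t → info r p f z' y = t →
        (∀ k, vv idx idV f y z k < uu idx idV r f y z' k) → col z ≠ col z' := by
    intro y t
    obtain ⟨col, hcol⟩ := special (u := uu idx idV r f y) (v := vv idx idV f y)
      (S := {z | H.Adj z y ∧ Ok r p f z y ∧ info r p f z y = t})
      (fun z _ k => uu_le_vv hr y z k) (by
        intro C hCS hC
        apply hc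
        intro z hz z' hz' hne
        have h1 := hCS hz
        have h2 := hCS hz'
        rcases hC z hz z' hz' hne with h3 | h3
        · exact adj_of_lt hr hf h1.1 h1.2.1 h2.2.1 (h1.2.2.trans h2.2.2.symm) hne h3
        · exact (adj_of_lt hr hf h2.1 h2.2.1 h1.2.1 (h2.2.2.trans h1.2.2.symm) hne.symm h3).symm)
    exact ⟨col, fun z z' h1 h2 h3 h4 h5 h6 h7 => hcol z ⟨h1, h3, h5⟩ z' ⟨h2, h4, h6⟩ h7⟩
  choose col hcol using hcol
  obtain ⟨code, hcode⟩ := exists_injective_nat ((ℕ × ℕ) × (Fin n → Fin n → ℕ) ×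
    (Fin n → Fin n → ℕ) × (Fin n → Fin n → ℕ) × (Fin n → Fin n → ℕ))
  let g : V → V → ℕ := fun z y => Nat.pair (code (info r p f z y)) (col y (info r p f z y) z)
  refine ⟨fun x y => if idV x < idV y then g x y else if idV y < idV x then g y x else 0, ?_, ?_⟩
  · intro x y
    rcases lt_trichotomy (idV x) (idV y) with h | h | h
    · simp only [if_pos h, if_neg h.not_gt]
    · simp only [h, lt_irrefl, if_false]
    · simp only [if_pos h, if_neg h.not_gt]
  · intro x hinj hadj m hm
    -- an increasing subsequence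
    obtain ⟨φ, hφ⟩ := exists_increasing_or_nonincreasing_subseq (fun a b : Ordinal.{max u v} => a < b)
      (fun i => idV (x i))
    have hinc : ∀ i k, i < k → idV (x (φ i)) < idV (x (φ k)) := by
      rcases hφ with hφ | hφ
      · exact fun i k hik => hφ i k hik
      · exfalso
        have hdec : StrictAnti fun i => idV (x (φ i)) := by
          intro i k hik
          have h1 := hφ i k hik
          rcases lt_trichotomy (idV (x (φ k))) (idV (x (φ i))) with h | h | h
          · exact h
          · exact absurd (φ.injective (hinj (hidV h))) (ne_of_gt hik)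
          · exact absurd h h1
        obtain ⟨o, ⟨i, hi⟩, hmin⟩ := WellFounded.has_min (wellFounded_lt (α := Ordinal.{max u v}))
          (Set.range fun i => idV (x (φ i))) ⟨_, ⟨0, rfl⟩⟩
        exact hmin _ ⟨i + 1, rfl⟩ (hi ▸ hdec (Nat.lt_succ_self i))
    have hg : ∀ i k, i < k → g (x (φ i)) (x (φ k)) = m := by
      intro i k hik
      have h1 := hm (φ i) (φ k) (fun h => (ne_of_lt hik) (φ.injective h))
      simpa only [if_pos (hinc i k hik)] using h1
    have hinfo : ∀ i k, i < k → info r p f (x (φ i)) (x (φ k)) = info r p f (x (φ 0)) (x (φ 1)) := by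
      intro i k hik
      apply hcode
      have h1 := (hg i k hik).trans (hg 0 1 Nat.zero_lt_one).symm
      exact (Nat.pair_eq_pair.1 h1).1
    obtain ⟨j, k, hj, hjk, hlt⟩ := exists_triple (idx := idx) hidx (idV := idV) hr (f := f)
      (fun i => x (φ i)) hinc hinfo
    have hok0 := ok_of_const hr (f := f) (fun i => x (φ i)) hinfo (hj.trans hjk)
    have hokj := ok_of_const hr (f := f) (fun i => x (φ i)) hinfo hjk
    have hadj' : ∀ i k, i < k → H.Adj (x (φ i)) (x (φ k)) := fun i k hik =>
      hadj _ _ fun h => (ne_of_lt hik) (φ.injective h)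
    refine hcol (x (φ k)) (info r p f (x (φ 0)) (x (φ 1))) (x (φ 0)) (x (φ j))
      (hadj' 0 k (hj.trans hjk)) (hadj' j k hjk) hok0 hokj (hinfo 0 k (hj.trans hjk))
      (hinfo j k hjk) hlt ?_
    have h0 := hg 0 k (hj.trans hjk)
    have h1 := hg j k hjk
    have h2 := (Nat.pair_eq_pair.1 (h0.trans h1.symm)).2
    rw [hinfo 0 k (hj.trans hjk), hinfo j k hjk] at h2
    exact h2

end Pool.Agent.Lib.MP_e45b43_lc
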