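import Pool.Agent.Lib.MP_e45b43_lc.Typed

/-!
# Label-determined graphs with coordinate tuples of arbitrary finite length
-/

set_option autoImplicit false

universe u v

namespace Pool.Agent.Lib.MP_e45b43_lc

/-- `H` is the comparability graph of a strict partial order -/
def IsComparabilityGraph {V : Type u} (H : SimpleGraph V) : Prop :=
  ∃ R : V → V → Prop, IsStrictOrder V R ∧ ∀ x y, H.Adj x y ↔ R x y ∨ R y x

/-- Every vertex `x` has a colour `p x` and a finite tuple `f x 0, …, f x (len x - 1)` of points of a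
linear order with an additive labelling `r`, and adjacency of two different vertices depends only
on their colours, the lengths of their tuples and the labels of their coordinates. -/
def LabelDetermined {V : Type u} (H : SimpleGraph V) : Prop :=
  ∃ (L : Type v) (_ : LinearOrder L) (r : L → L → ℕ) (p : V → ℕ) (len : V → ℕ) (f : V → ℕ → L),
    IsLab r ∧ ∀ x y x' y' : V, x ≠ y → x' ≠ y' → p x = p x' → p y = p y' →
      len x = len x' → len y = len y' →
      (∀ i < len x, ∀ j < len x, r (f x i) (f x j) = r (f x' i) (f x' j)) →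
      (∀ i < len y, ∀ j < len y, r (f y i) (f y j) = r (f y' i) (f y' j)) →
      (∀ i < len x, ∀ j < len y, r (f x i) (f y j) = r (f x' i) (f y' j)) →
      (H.Adj x y ↔ H.Adj x' y')

/-- the edges between vertices with the value `n` -/
def levelGraph {V : Type u} (H : SimpleGraph V) (len : V → ℕ) (n : ℕ) : SimpleGraph V where
  Adj x y := H.Adj x y ∧ len x = n ∧ len y = n
  symm := ⟨fun _ _ h => ⟨h.1.symm, h.2.2, h.2.1⟩⟩
  loopless := ⟨fun _ h => h.1.ne rfl⟩

/-- the edges between vertices with different values -/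
def crossGraph {V : Type u} (H : SimpleGraph V) (len : V → ℕ) : SimpleGraph V where
  Adj x y := H.Adj x y ∧ len x ≠ len y
  symm := ⟨fun _ _ h => ⟨h.1.symm, h.2.symm⟩⟩
  loopless := ⟨fun _ h => h.1.ne rfl⟩

theorem cross_bad {V : Type u} (H : SimpleGraph V) (len : V → ℕ) : Bad (crossGraph H len) := by
  refine ⟨fun x y => min (len x) (len y), fun x y => min_comm _ _, fun x _ hadj n hn => ?_⟩
  have h01 := (hadj 0 1 (by norm_num)).2
  have h02 := (hadj 0 2 (by norm_num)).2
  have h12 := (hadj 1 2 (by norm_num)).2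
  have e01 := hn 0 1 (by norm_num)
  have e02 := hn 0 2 (by norm_num)
  have e12 := hn 1 2 (by norm_num)
  simp only at e01 e02 e12
  omega

theorem LabelDetermined.bad {V : Type u} {H : SimpleGraph V} (h : LabelDetermined.{u, v} H)
    (hc : ∀ S : Set V, H.IsClique S → S.Countable) : Bad H := by
  obtain ⟨L, _, r, p, len, f, hr, hf⟩ := h
  let G : ℕ → SimpleGraph V := fun n => if n = 0 then crossGraph H len else levelGraph H len (n - 1)
  refine bad_union H G (fun x y => ⟨fun hxy => ?_, ?_⟩) fun n => ?_
  · by_cases hl : len x = len y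
    · refine ⟨len y + 1, ?_⟩
      simp only [G, if_neg (Nat.succ_ne_zero _), Nat.add_sub_cancel]
      exact ⟨hxy, hl, rfl⟩
    · refine ⟨0, ?_⟩
      simp only [G, if_true]
      exact ⟨hxy, hl⟩
  · rintro ⟨n, hn⟩
    by_cases h0 : n = 0
    · simp only [G, if_pos h0] at hn
      exact hn.1
    · simp only [G, if_neg h0] at hn
      exact hn.1
  · by_cases h0 : n = 0
    · simp only [G, if_pos h0]
      exact cross_bad H len
    · simp only [G, if_neg h0]
      obtain ⟨m, hm⟩ : ∃ m, m = n - 1 := ⟨_, rfl⟩
      rw [← hm]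
      refine typed_bad (levelGraph H len m) r hr (fun x => Nat.pair (p x) (len x)) m
        (fun x i => f x i) ?_ fun S hS => hc S fun x hx y hy hxy => (hS hx hy hxy).1
      intro x y x' y' hxy hxy' hp hp' h1 h2 h3
      have e1 := Nat.pair_eq_pair.1 hp
      have e2 := Nat.pair_eq_pair.1 hp'
      constructor
      · rintro ⟨hadj, hlx, hly⟩
        refine ⟨(hf x y x' y' hxy hxy' e1.1 e2.1 e1.2 e2.2 ?_ ?_ ?_).1 hadj, by omega, by omega⟩
        · intro i hi j hj
          exact h1 ⟨i, by omega⟩ ⟨j, by omega⟩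
        · intro i hi j hj
          exact h2 ⟨i, by omega⟩ ⟨j, by omega⟩
        · intro i hi j hj
          exact h3 ⟨i, by omega⟩ ⟨j, by omega⟩
      · rintro ⟨hadj, hlx, hly⟩
        refine ⟨(hf x y x' y' hxy hxy' e1.1 e2.1 e1.2 e2.2 ?_ ?_ ?_).2 hadj, by omega, by omega⟩
        · intro i hi j hj
          exact h1 ⟨i, by omega⟩ ⟨j, by omega⟩
        · intro i hi j hj
          exact h2 ⟨i, by omega⟩ ⟨j, by omega⟩
        · intro i hi j hj
          exact h3 ⟨i, by omega⟩ ⟨j, by omega⟩

end Pool.Agent.Lib.MP_e45b43_lc
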